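import Mathlib

/-!
# Limits of combinatorial structures: definitions for MP_e98621_co

Finite relational languages, finite structures, canonical theories, limit objects (as limits of
induced densities of convergent sequences of finite models), representations by measurable subsets
of cubes, rank, `Independence[ℓ]`, couplings, unique coupleability and `UCouple[ℓ]`.
-/

namespace Pool.Agent.Lib.MP_e98621_co

open MeasureTheory Filter Topology

/-- A finite relational language: a finite type `ι` of predicate symbols, each with a positive
arity. -/
structure Lang where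
  /-- the predicate symbols -/
  ι : Type
  /-- there are finitely many predicate symbols -/
  fin : Finite ι
  /-- the arity of a predicate symbol -/
  ar : ι → ℕ
  /-- arities are positive -/
  ar_pos : ∀ i, 0 < ar i

/-- A structure on the vertex set `V` (satisfying the canonical axioms: each predicate holds only
on tuples of pairwise distinct elements): for each predicate symbol of arity `k`, the set of the
injective `k`-tuples of `V` on which it holds. -/
def Str (L : Lang) (V : Type) : Type := ∀ i : L.ι, (Fin (L.ar i) ↪ V) → Prop

variable {L L' : Lang} {V W : Type}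

/-- The structure induced by `N` along an injection `f : V ↪ W`. -/
def Str.comap (f : V ↪ W) (N : Str L W) : Str L V := fun i α => N i (α.trans f)

/-- A canonical theory, given by its finite models: a class of finite structures that is closed
under induced substructures and isomorphism.  (In a finite relational language these classes are
exactly the classes of finite models of the universal theories.) -/
structure CanonicalTheory (L : Lang) where
  /-- `model n M`: the structure `M` on `n` vertices is a model of the theory -/
  model : ∀ n : ℕ, Str L (Fin n) → Prop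
  /-- models are closed under induced substructures (and isomorphic copies) -/
  hereditary : ∀ {m n : ℕ} (f : Fin m ↪ Fin n) (N : Str L (Fin n)),
    model n N → model m (N.comap f)

/-- Two structures on `k` vertices are isomorphic. -/
def Iso {k : ℕ} (M N : Str L (Fin k)) : Prop :=
  ∃ σ : Fin k ≃ Fin k, N.comap σ.toEmbedding = M

/-- The structure induced by `N` on the vertex set `S` is isomorphic to `M`. -/
def InducedCopy {k n : ℕ} (M : Str L (Fin k)) (N : Str L (Fin n)) (S : Finset (Fin n)) : Prop :=
  ∃ f : Fin k ↪ Fin n, Finset.univ.map f = S ∧ N.comap f = M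

/-- `p M N`: the normalised number of induced copies of `M` in `N`, i.e. the number of vertex sets
`S` of `N` with `N[S] ≅ M`, divided by the number of all vertex sets of size `|M|`. -/
noncomputable def p {k n : ℕ} (M : Str L (Fin k)) (N : Str L (Fin n)) : ℝ :=
  (Nat.card {S : Finset (Fin n) // InducedCopy M N S} : ℝ) / (n.choose k : ℝ)

/-- Real-valued functions of finite structures; limit objects are such functions. -/
def Obj (L : Lang) : Type := ∀ k : ℕ, Str L (Fin k) → ℝ

/-- The sequence `N` of finite structures is convergent with limit `φ`: the sizes increase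
strictly and `p(M, N_m) → φ(M)` for every finite structure `M`. -/
structure Converges (N : ℕ → Σ n : ℕ, Str L (Fin n)) (φ : Obj L) : Prop where
  size : StrictMono fun m => (N m).1
  lim : ∀ (k : ℕ) (M : Str L (Fin k)), Tendsto (fun m => p M (N m).2) atTop (𝓝 (φ k M))

/-- `φ` is a limit object of the canonical theory `T`: the limit of a convergent sequence of finite
models of `T`. -/
def IsLimitObject (T : CanonicalTheory L) (φ : Obj L) : Prop :=
  ∃ N : ℕ → Σ n : ℕ, Str L (Fin n), (∀ m, T.model (N m).1 (N m).2) ∧ Converges N φ

/-! ### Representations -/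

/-- The non-empty finite subsets of `V`. -/
abbrev NSub (V : Type) : Type := {A : Finset V // A.Nonempty}

/-- The cube `[0,1]^{r(V)}`, where `r(V)` is the set of non-empty finite subsets of `V`. -/
abbrev Cube (V : Type) : Type := NSub V → unitInterval

/-- The point `(θ_{α(B)})_B` of the cube over `V`, for an injection `α : V ↪ W`. -/
def Cube.comap (α : V ↪ W) (θ : Cube W) : Cube V :=
  fun B => θ ⟨B.1.map α, B.2.map⟩

/-- The law of the i.i.d. uniform variables `(θ_A)`, `A` a non-empty subset of `{0, …, n-1}`. -/
noncomputable def cubeMeasure (n : ℕ) : Measure (Cube (Fin n)) :=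
  Measure.pi fun _ => (volume : Measure unitInterval)

/-- A family of measurable sets `𝒩_P ⊆ [0,1]^{r(k(P))}`, one for each predicate symbol `P`. -/
structure Rep (L : Lang) where
  /-- the set `𝒩_P` -/
  N : ∀ i : L.ι, Set (Cube (Fin (L.ar i)))
  /-- `𝒩_P` is measurable -/
  meas : ∀ i, MeasurableSet (N i)

/-- The structure `K` built from the coordinates `θ`: `P(α)` holds iff
`(θ_{α(B)})_B ∈ 𝒩_P`. -/
def Rep.str (R : Rep L) (θ : Cube V) : Str L V := fun i α => θ.comap α ∈ R.N i

/-- `R` represents `φ`: for every finite `M`, `φ(M)` is the probability that the random structure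
`K|[k]` is isomorphic to `M`, where `k = |M|`.  (`K|[k]` only uses the coordinates `θ_A` with
`A ⊆ [k]` non-empty.) -/
def Rep.Represents (R : Rep L) (φ : Obj L) : Prop :=
  ∀ (k : ℕ) (M : Str L (Fin k)), φ k M = (cubeMeasure k).real {θ | Iso M (R.str θ)}

/-- `rk(φ) ≤ ℓ`: `φ` has a representation all of whose sets depend only on the coordinates `x_B`
with `|B| ≤ ℓ`. -/
def RankLE (φ : Obj L) (ℓ : ℕ) : Prop :=
  ∃ R : Rep L, R.Represents φ ∧
    ∀ i, DependsOn (fun x => x ∈ R.N i) {B : NSub (Fin (L.ar i)) | B.1.card ≤ ℓ}

/-- `φ ∈ Independence[ℓ]`: `φ` has a representation all of whose sets depend only on the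
coordinates `x_B` with `|B| > ℓ`. -/
def Independence (φ : Obj L) (ℓ : ℕ) : Prop :=
  ∃ R : Rep L, R.Represents φ ∧
    ∀ i, DependsOn (fun x => x ∈ R.N i) {B : NSub (Fin (L.ar i)) | ℓ < B.1.card}

/-! ### Couplings -/

/-- The disjoint union of two languages. -/
def Lang.sum (L L' : Lang) : Lang where
  ι := L.ι ⊕ L'.ι
  fin := by
    have := L.fin
    have := L'.fin
    infer_instance
  ar := Sum.elim L.ar L'.ar
  ar_pos := by
    rintro (i | i)
    · exact L.ar_pos i
    · exact L'.ar_pos i

/-- The restriction of a structure to the first language. -/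
def Str.left (N : Str (L.sum L') V) : Str L V := fun i => N (Sum.inl i)

/-- The restriction of a structure to the second language. -/
def Str.right (N : Str (L.sum L') V) : Str L' V := fun i => N (Sum.inr i)

/-- The theory `T ∪ T'` in the disjoint union of the languages. -/
def CanonicalTheory.union (T : CanonicalTheory L) (T' : CanonicalTheory L') :
    CanonicalTheory (L.sum L') where
  model n N := T.model n N.left ∧ T'.model n N.right
  hereditary f N h := ⟨T.hereditary f N.left h.1, T'.hereditary f N.right h.2⟩

/-- `ξ` is a coupling of `φ` and `ψ`: a limit object of `T ∪ T'` whose restrictions to the two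
languages are `φ` and `ψ`, i.e. `ξ` is the limit of a convergent sequence of finite models of
`T ∪ T'` whose restrictions to the two languages converge to `φ` and to `ψ`. -/
def IsCoupling (T : CanonicalTheory L) (T' : CanonicalTheory L') (φ : Obj L) (ψ : Obj L')
    (ξ : Obj (L.sum L')) : Prop :=
  ∃ N : ℕ → Σ n : ℕ, Str (L.sum L') (Fin n),
    (∀ m, (T.union T').model (N m).1 (N m).2) ∧ Converges N ξ ∧
    Converges (fun m => ⟨(N m).1, (N m).2.left⟩) φ ∧
    Converges (fun m => ⟨(N m).1, (N m).2.right⟩) ψ

/-- `φ` and `ψ` are uniquely coupleable: all their couplings coincide. -/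
def UniquelyCoupleable (T : CanonicalTheory L) (T' : CanonicalTheory L') (φ : Obj L)
    (ψ : Obj L') : Prop :=
  ∀ ξ ξ' : Obj (L.sum L'), IsCoupling T T' φ ψ ξ → IsCoupling T T' φ ψ ξ' → ξ = ξ'

/-- `φ ∈ UCouple[ℓ]`: `φ` is uniquely coupleable with every limit object `ψ` of every canonical
theory, in every finite relational language, with `rk(ψ) ≤ ℓ`. -/
def UCouple (T : CanonicalTheory L) (φ : Obj L) (ℓ : ℕ) : Prop :=
  ∀ (L' : Lang) (T' : CanonicalTheory L') (ψ : Obj L'),
    IsLimitObject T' ψ → RankLE ψ ℓ → UniquelyCoupleable T T' φ ψ

end Pool.Agent.Lib.MP_e98621_co
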