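import Mathlib
import Pool.Agent.Lib.MP_e98621_co.Defs

/-!
# Basic facts: labelled densities, consistency, laws of represented structures
-/

namespace Pool.Agent.Lib.MP_e98621_co

open MeasureTheory Filter Topology

variable {L L' : Lang} {V W U : Type}

instance instFiniteIota (L : Lang) : Finite L.ι := L.fin

instance instFiniteStr [Finite V] : Finite (Str L V) := by
  unfold Str
  infer_instance

noncomputable instance instFintypeStr [Finite V] : Fintype (Str L V) := Fintype.ofFinite _

noncomputable instance instDecEqStr : DecidableEq (Str L V) := Classical.decEq _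

lemma Str.comap_comap (f : U ↪ V) (g : V ↪ W) (N : Str L W) :
    (N.comap g).comap f = N.comap (f.trans g) := rfl

lemma Str.comap_refl (N : Str L V) : N.comap (Function.Embedding.refl V) = N := rfl

lemma Str.ext {M N : Str L V} (h : ∀ i α, M i α ↔ N i α) : M = N := by
  funext i α
  exact propext (h i α)

lemma Str.comap_left (f : V ↪ W) (N : Str (L.sum L') W) : (N.comap f).left = N.left.comap f := rfl

lemma Str.comap_right (f : V ↪ W) (N : Str (L.sum L') W) :
    (N.comap f).right = N.right.comap f := rfl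

/-- Any two embeddings into a finite type differ by a permutation. -/
lemma exists_perm {A C : Type} [Finite C] (h h' : A ↪ C) :
    ∃ σ : Equiv.Perm C, h.trans σ.toEmbedding = h' := by
  classical
  have := Fintype.ofFinite C
  let e : {x // x ∈ Set.range h} ≃ {x // x ∈ Set.range h'} :=
    (Equiv.ofInjective h h.injective).symm.trans (Equiv.ofInjective h' h'.injective)
  refine ⟨Equiv.extendSubtype e, ?_⟩
  ext a
  have : Equiv.extendSubtype e (h a) = e ⟨h a, ⟨a, rfl⟩⟩ :=
    Equiv.extendSubtype_apply_of_mem e (h a) ⟨a, rfl⟩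
  simp only [Function.Embedding.trans_apply, Equiv.coe_toEmbedding, this]
  simp only [e, Equiv.trans_apply]
  have h2 : (Equiv.ofInjective h h.injective).symm ⟨h a, ⟨a, rfl⟩⟩ = a := by
    rw [Equiv.symm_apply_eq]
    rfl
  rw [h2]
  rfl

/-- Restricting injections is equidistributed. -/
lemma sum_restrict {A B C : Type} [Fintype (A ↪ C)] [Fintype (B ↪ C)] [Finite C]
    (hBC : Nonempty (B ↪ C)) (f : A ↪ B) (H : (A ↪ C) → ℝ) :
    (∑ g : B ↪ C, H (f.trans g)) / Fintype.card (B ↪ C) =
      (∑ h : A ↪ C, H h) / Fintype.card (A ↪ C) := by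
  classical
  obtain ⟨g₀⟩ := hBC
  let c : (A ↪ C) → ℕ := fun h => (Finset.univ.filter fun g : B ↪ C => f.trans g = h).card
  have hc : ∀ h h', c h = c h' := by
    intro h h'
    obtain ⟨σ, hσ⟩ := exists_perm h h'
    refine Finset.card_bij' (fun g _ => g.trans σ.toEmbedding)
      (fun g _ => g.trans σ.symm.toEmbedding) ?_ ?_ ?_ ?_
    · intro g hg
      simp only [Finset.mem_filter, Finset.mem_univ, true_and] at hg ⊢
      rw [← hσ, ← hg]
      rfl
    · intro g hg
      simp only [Finset.mem_filter, Finset.mem_univ, true_and] at hg ⊢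
      have : f.trans (g.trans σ.symm.toEmbedding) = h'.trans σ.symm.toEmbedding := by
        rw [← hg]; rfl
      rw [this, ← hσ]
      ext a
      simp
    · intro g _
      ext a
      simp
    · intro g _
      ext a
      simp
  have key : ∀ H : (A ↪ C) → ℝ,
      ∑ g : B ↪ C, H (f.trans g) = c (f.trans g₀) * ∑ h : A ↪ C, H h := by
    intro H
    rw [← Finset.sum_fiberwise (s := Finset.univ) (g := fun g : B ↪ C => f.trans g)
      (f := fun g => H (f.trans g)), Finset.mul_sum]
    refine Finset.sum_congr rfl fun h _ => ?_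
    rw [Finset.sum_congr rfl (g := fun _ => H h)]
    · rw [Finset.sum_const, nsmul_eq_mul]
      congr 2
      exact hc h (f.trans g₀)
    · intro g hg
      simp only [Finset.mem_filter, Finset.mem_univ, true_and] at hg
      rw [hg]
  have h1 := key (fun _ => 1)
  simp only [Finset.sum_const, Finset.card_univ, nsmul_eq_mul, mul_one] at h1
  rw [key H, h1]
  have hc0 : (c (f.trans g₀) : ℝ) ≠ 0 := by
    have : 0 < c (f.trans g₀) := Finset.card_pos.mpr ⟨g₀, by simp⟩
    positivity
  rw [mul_div_mul_left _ _ hc0]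

/-- The labelled induced density. -/
noncomputable def dens {k n : ℕ} (M : Str L (Fin k)) (N : Str L (Fin n)) : ℝ :=
  (Nat.card {f : Fin k ↪ Fin n // N.comap f = M} : ℝ) / Fintype.card (Fin k ↪ Fin n)

/-- The number of automorphisms. -/
noncomputable def aut {k : ℕ} (M : Str L (Fin k)) : ℕ :=
  Nat.card {σ : Fin k ≃ Fin k // M.comap σ.toEmbedding = M}

lemma aut_pos {k : ℕ} (M : Str L (Fin k)) : 0 < aut M := by
  have : Nonempty {σ : Fin k ≃ Fin k // M.comap σ.toEmbedding = M} :=
    ⟨⟨Equiv.refl _, rfl⟩⟩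
  exact Nat.card_pos

/-- The number of embeddings is the number of automorphisms times the number of copies. -/
lemma card_emb {k n : ℕ} (M : Str L (Fin k)) (N : Str L (Fin n)) :
    Nat.card {f : Fin k ↪ Fin n // N.comap f = M} =
      aut M * Nat.card {S : Finset (Fin n) // InducedCopy M N S} := by
  classical
  rw [mul_comm, aut, ← Nat.card_prod]
  let F : {S : Finset (Fin n) // InducedCopy M N S} → (Fin k ↪ Fin n) :=
    fun S => S.2.choose
  have hF1 : ∀ S, Finset.univ.map (F S) = S.1 := fun S => S.2.choose_spec.1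
  have hF2 : ∀ S, N.comap (F S) = M := fun S => S.2.choose_spec.2
  symm
  refine Nat.card_eq_of_bijective (fun x => ⟨x.2.1.toEmbedding.trans (F x.1), ?_⟩) ⟨?_, ?_⟩
  · rw [← Str.comap_comap, hF2]
    exact x.2.2
  · rintro ⟨S, σ⟩ ⟨S', σ'⟩ h
    have h' : σ.1.toEmbedding.trans (F S) = σ'.1.toEmbedding.trans (F S') := congrArg Subtype.val h
    have hS : S = S' := by
      apply Subtype.ext
      rw [← hF1 S, ← hF1 S']
      ext a
      constructor
      · intro ha
        obtain ⟨i, _, rfl⟩ := Finset.mem_map.mp ha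
        obtain ⟨j, rfl⟩ := σ.1.surjective i
        have := DFunLike.congr_fun h' j
        simp only [Function.Embedding.trans_apply, Equiv.coe_toEmbedding] at this
        rw [this]
        simp
      · intro ha
        obtain ⟨i, _, rfl⟩ := Finset.mem_map.mp ha
        obtain ⟨j, rfl⟩ := σ'.1.surjective i
        have := DFunLike.congr_fun h' j
        simp only [Function.Embedding.trans_apply, Equiv.coe_toEmbedding] at this
        rw [← this]
        simp
    subst hS
    have hσ : σ = σ' := by
      apply Subtype.ext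
      ext j
      have := DFunLike.congr_fun h' j
      simp only [Function.Embedding.trans_apply, Equiv.coe_toEmbedding] at this
      rw [(F S).injective this]
    rw [hσ]
  · rintro ⟨f, hf⟩
    let S : {S : Finset (Fin n) // InducedCopy M N S} := ⟨Finset.univ.map f, f, rfl, hf⟩
    have hrange : ∀ i, ∃ j, F S j = f i := by
      intro i
      have : f i ∈ Finset.univ.map (F S) := by
        rw [hF1 S]
        simp [S]
      obtain ⟨j, _, hj⟩ := Finset.mem_map.mp this
      exact ⟨j, hj⟩
    choose s hs using hrange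
    have hsinj : Function.Injective s := by
      intro i j hij
      apply f.injective
      rw [← hs, ← hs, hij]
    let σ : Fin k ≃ Fin k := Equiv.ofBijective s (Finite.injective_iff_bijective.mp hsinj)
    have hσ : σ.toEmbedding.trans (F S) = f := by
      ext i
      simp [σ, hs]
    refine ⟨⟨S, ⟨σ, ?_⟩⟩, ?_⟩
    · have : M.comap σ.toEmbedding = (N.comap (F S)).comap σ.toEmbedding := by rw [hF2]
      rw [this, Str.comap_comap, hσ, hf]
    · exact Subtype.ext hσ

lemma dens_eq {k n : ℕ} (M : Str L (Fin k)) (N : Str L (Fin n)) :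
    dens M N = aut M / k.factorial * p M N := by
  rw [dens, p, card_emb, Fintype.card_embedding_eq, Fintype.card_fin, Fintype.card_fin,
    Nat.descFactorial_eq_factorial_mul_choose]
  push_cast
  rw [mul_div_mul_comm]

/-- The labelled version of an object. -/
noncomputable def lab (φ : Obj L) (k : ℕ) (M : Str L (Fin k)) : ℝ :=
  aut M / k.factorial * φ k M

lemma lab_inj {φ φ' : Obj L} (h : ∀ k M, lab φ k M = lab φ' k M) : φ = φ' := by
  funext k M
  have h1 := h k M
  have h2 : (0 : ℝ) < aut M := by exact_mod_cast aut_pos M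
  have h3 : (0 : ℝ) < k.factorial := by exact_mod_cast k.factorial_pos
  have h4 : (aut M : ℝ) / k.factorial ≠ 0 := by positivity
  exact mul_left_cancel₀ h4 h1

lemma Converges.lab {N : ℕ → Σ n : ℕ, Str L (Fin n)} {φ : Obj L} (h : Converges N φ) (k : ℕ)
    (M : Str L (Fin k)) : Tendsto (fun m => dens M (N m).2) atTop (𝓝 (lab φ k M)) := by
  simp_rw [dens_eq]
  exact (h.lim k M).const_mul _

lemma converges_of_lab {N : ℕ → Σ n : ℕ, Str L (Fin n)} {φ : Obj L}
    (hs : StrictMono fun m => (N m).1)
    (h : ∀ k (M : Str L (Fin k)), Tendsto (fun m => dens M (N m).2) atTop (𝓝 (lab φ k M))) :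
    Converges N φ := by
  refine ⟨hs, fun k M => ?_⟩
  have h2 : (0 : ℝ) < aut M := by exact_mod_cast aut_pos M
  have h3 : (0 : ℝ) < k.factorial := by exact_mod_cast k.factorial_pos
  have h4 : (aut M : ℝ) / k.factorial ≠ 0 := by positivity
  have := (h k M).const_mul ((aut M : ℝ) / k.factorial)⁻¹
  simp_rw [dens_eq] at this
  simp only [MP_e98621_co.lab] at this
  have e1 : ∀ x : ℝ, ((aut M : ℝ) / k.factorial)⁻¹ * (aut M / k.factorial * x) = x := by
    intro x
    rw [← mul_assoc, inv_mul_cancel₀ h4, one_mul]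
  simp only [e1] at this
  exact this

/-- Expectations of a function of the induced structure on a random injection. -/
lemma dens_expect {k n : ℕ} (N : Str L (Fin n)) (G : Str L (Fin k) → ℝ) :
    ∑ M : Str L (Fin k), dens M N * G M =
      (∑ g : Fin k ↪ Fin n, G (N.comap g)) / Fintype.card (Fin k ↪ Fin n) := by
  classical
  simp_rw [dens]
  rw [← Finset.sum_fiberwise (s := Finset.univ) (g := fun g : Fin k ↪ Fin n => N.comap g)
      (f := fun g => G (N.comap g)), Finset.sum_div]
  refine Finset.sum_congr rfl fun M _ => ?_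
  rw [Finset.sum_congr rfl (g := fun _ => G M)]
  · rw [Finset.sum_const, nsmul_eq_mul, Nat.card_eq_fintype_card, Fintype.card_subtype]
    ring
  · intro g hg
    simp only [Finset.mem_filter, Finset.mem_univ, true_and] at hg
    rw [hg]

lemma dens_nonneg {k n : ℕ} (M : Str L (Fin k)) (N : Str L (Fin n)) : 0 ≤ dens M N := by
  unfold dens
  positivity

/-- A family of labelled densities is consistent. -/
def Consistent (Ξ : ∀ k : ℕ, Str L (Fin k) → ℝ) : Prop :=
  ∀ {j k : ℕ} (f : Fin j ↪ Fin k) (F : Str L (Fin j) → ℝ),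
    ∑ M : Str L (Fin k), Ξ k M * F (M.comap f) = ∑ M : Str L (Fin j), Ξ j M * F M

lemma StrictMono.tendsto_size {N : ℕ → Σ n : ℕ, Str L (Fin n)} {φ : Obj L}
    (h : Converges N φ) (k : ℕ) : ∀ᶠ m in atTop, k ≤ (N m).1 :=
  h.size.tendsto_atTop.eventually_ge_atTop k

lemma lab_nonneg {N : ℕ → Σ n : ℕ, Str L (Fin n)} {φ : Obj L} (h : Converges N φ) (k : ℕ)
    (M : Str L (Fin k)) : 0 ≤ lab φ k M :=
  ge_of_tendsto' (h.lab k M) fun _ => dens_nonneg _ _

lemma lab_consistent {N : ℕ → Σ n : ℕ, Str L (Fin n)} {φ : Obj L} (h : Converges N φ) :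
    Consistent (lab φ) := by
  intro j k f F
  have h1 : Tendsto (fun m => ∑ M : Str L (Fin k), dens M (N m).2 * F (M.comap f)) atTop
      (𝓝 (∑ M : Str L (Fin k), lab φ k M * F (M.comap f))) :=
    tendsto_finsetSum _ fun M _ => (h.lab k M).mul_const _
  have h2 : Tendsto (fun m => ∑ M : Str L (Fin j), dens M (N m).2 * F M) atTop
      (𝓝 (∑ M : Str L (Fin j), lab φ j M * F M)) :=
    tendsto_finsetSum _ fun M _ => (h.lab j M).mul_const _
  refine tendsto_nhds_unique (h1.congr' ?_) h2
  filter_upwards [StrictMono.tendsto_size h k] with m hm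
  rw [dens_expect, dens_expect]
  exact sum_restrict (Function.Embedding.nonempty_of_card_le (by simpa using hm)) f
    (fun g => F ((N m).2.comap g))

lemma lab_left {N : ℕ → Σ n : ℕ, Str (L.sum L') (Fin n)} {ξ : Obj (L.sum L')} {φ : Obj L}
    (h : Converges N ξ) (h' : Converges (fun m => ⟨(N m).1, (N m).2.left⟩) φ) (k : ℕ)
    (F : Str L (Fin k) → ℝ) :
    ∑ M : Str (L.sum L') (Fin k), lab ξ k M * F M.left = ∑ M : Str L (Fin k), lab φ k M * F M := by
  have h1 : Tendsto (fun m => ∑ M : Str (L.sum L') (Fin k), dens M (N m).2 * F M.left) atTop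
      (𝓝 (∑ M : Str (L.sum L') (Fin k), lab ξ k M * F M.left)) :=
    tendsto_finsetSum _ fun M _ => (h.lab k M).mul_const _
  have h2 : Tendsto (fun m => ∑ M : Str L (Fin k), dens M (N m).2.left * F M) atTop
      (𝓝 (∑ M : Str L (Fin k), lab φ k M * F M)) :=
    tendsto_finsetSum _ fun M _ => (h'.lab k M).mul_const _
  refine tendsto_nhds_unique h1 (h2.congr fun m => ?_)
  rw [dens_expect, dens_expect]
  rfl

lemma lab_right {N : ℕ → Σ n : ℕ, Str (L.sum L') (Fin n)} {ξ : Obj (L.sum L')} {ψ : Obj L'}
    (h : Converges N ξ) (h' : Converges (fun m => ⟨(N m).1, (N m).2.right⟩) ψ) (k : ℕ)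
    (F : Str L' (Fin k) → ℝ) :
    ∑ M : Str (L.sum L') (Fin k), lab ξ k M * F M.right =
      ∑ M : Str L' (Fin k), lab ψ k M * F M := by
  have h1 : Tendsto (fun m => ∑ M : Str (L.sum L') (Fin k), dens M (N m).2 * F M.right) atTop
      (𝓝 (∑ M : Str (L.sum L') (Fin k), lab ξ k M * F M.right)) :=
    tendsto_finsetSum _ fun M _ => (h.lab k M).mul_const _
  have h2 : Tendsto (fun m => ∑ M : Str L' (Fin k), dens M (N m).2.right * F M) atTop
      (𝓝 (∑ M : Str L' (Fin k), lab ψ k M * F M)) :=
    tendsto_finsetSum _ fun M _ => (h'.lab k M).mul_const _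
  refine tendsto_nhds_unique h1 (h2.congr fun m => ?_)
  rw [dens_expect, dens_expect]
  rfl

end Pool.Agent.Lib.MP_e98621_co
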