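import Mathlib
import Pool.Agent.Lib.MP_e98621_co.Basic

/-!
# Cubes: coordinate maps are measure preserving, laws of represented structures
-/

namespace Pool.Agent.Lib.MP_e98621_co

open MeasureTheory Filter Topology

variable {L L' : Lang} {V W U : Type}

/-- Selecting coordinates along an injection preserves product measure. -/
lemma mp_comp {I J : Type*} [Fintype I] [Fintype J] (ι : I → J) (hι : Function.Injective ι) :
    MeasurePreserving (fun (θ : J → unitInterval) i => θ (ι i))
      (Measure.pi fun _ => volume) (Measure.pi fun _ => volume) := by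
  classical
  refine ⟨by fun_prop, ?_⟩
  symm
  refine Measure.pi_eq fun s hs => ?_
  rw [Measure.map_apply (by fun_prop) (MeasurableSet.univ_pi hs)]
  let t : J → Set unitInterval := fun j => if h : ∃ i, ι i = j then s h.choose else Set.univ
  have ht : ∀ i, t (ι i) = s i := by
    intro i
    have h : ∃ i', ι i' = ι i := ⟨i, rfl⟩
    simp only [t, dif_pos h]
    congr 1
    exact hι h.choose_spec
  have hpre : (fun (θ : J → unitInterval) i => θ (ι i)) ⁻¹' (Set.univ.pi s) = Set.univ.pi t := by
    ext θ
    simp only [Set.mem_preimage, Set.mem_pi, Set.mem_univ, true_implies]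
    constructor
    · intro h j
      by_cases hj : ∃ i, ι i = j
      · obtain ⟨i, rfl⟩ := hj
        rw [ht]
        exact h i
      · simp [t, dif_neg hj]
    · intro h i
      rw [← ht]
      exact h (ι i)
  rw [hpre, Measure.pi_pi]
  rw [← Finset.prod_subset (Finset.subset_univ (Finset.univ.image ι))]
  · rw [Finset.prod_image fun a _ b _ h => hι h]
    exact Finset.prod_congr rfl fun i _ => by rw [ht]
  · intro j _ hj
    have : ¬ ∃ i, ι i = j := by
      rintro ⟨i, rfl⟩
      exact hj (Finset.mem_image_of_mem _ (Finset.mem_univ _))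
    simp [t, dif_neg this]

instance (n : ℕ) : IsProbabilityMeasure (cubeMeasure n) := by
  unfold cubeMeasure
  infer_instance

lemma Cube.comap_comap (f : U ↪ V) (g : V ↪ W) (θ : Cube W) :
    (θ.comap g).comap f = θ.comap (f.trans g) := by
  funext B
  simp only [Cube.comap]
  congr 1
  apply Subtype.ext
  exact Finset.map_map _ _ _

lemma Cube.comap_refl (θ : Cube V) : θ.comap (Function.Embedding.refl V) = θ := by
  funext B
  simp only [Cube.comap]
  congr 1
  apply Subtype.ext
  exact Finset.map_refl

lemma Cube.measurable_comap (f : V ↪ W) : Measurable (Cube.comap f) := by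
  apply measurable_pi_lambda
  intro B
  exact measurable_pi_apply _

lemma Cube.mp_comap {k n : ℕ} (f : Fin k ↪ Fin n) :
    MeasurePreserving (Cube.comap f) (cubeMeasure n) (cubeMeasure k) := by
  apply mp_comp (fun B : NSub (Fin k) => (⟨B.1.map f, B.2.map⟩ : NSub (Fin n)))
  intro A B h
  apply Subtype.ext
  exact Finset.map_injective f (congrArg Subtype.val h)

lemma Rep.str_comap (R : Rep L) (θ : Cube W) (f : V ↪ W) :
    (R.str θ).comap f = R.str (θ.comap f) := by
  funext i α
  simp only [Str.comap, Rep.str]
  rw [Cube.comap_comap]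

lemma Rep.measurableSet_pred (R : Rep L) (i : L.ι) (α : Fin (L.ar i) ↪ V) :
    MeasurableSet {θ : Cube V | R.str θ i α} :=
  (Cube.measurable_comap α) (R.meas i)

lemma Rep.measurableSet_str [Finite V] (R : Rep L) (M : Str L V) :
    MeasurableSet {θ : Cube V | R.str θ = M} := by
  have : {θ : Cube V | R.str θ = M} = ⋂ i, ⋂ α, {θ : Cube V | R.str θ i α ↔ M i α} := by
    ext θ
    simp only [Set.mem_ofPred_eq, Set.mem_iInter]
    constructor
    · rintro rfl i α
      exact Iff.rfl
    · intro h
      exact Str.ext h
  rw [this]
  refine MeasurableSet.iInter fun i => MeasurableSet.iInter fun α => ?_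
  exact (R.measurableSet_pred i α).iff (MeasurableSet.const _)

lemma Rep.measurableSet_of [Finite V] (R : Rep L) (P : Str L V → Prop) :
    MeasurableSet {θ : Cube V | P (R.str θ)} := by
  have : {θ : Cube V | P (R.str θ)} = ⋃ M : {M : Str L V // P M}, {θ : Cube V | R.str θ = M.1} := by
    ext θ
    simp only [Set.mem_ofPred_eq, Set.mem_iUnion, Subtype.exists, exists_prop]
    constructor
    · intro h
      exact ⟨_, h, rfl⟩
    · rintro ⟨M, hM, rfl⟩
      exact hM
  rw [this]
  exact MeasurableSet.iUnion fun M => R.measurableSet_str M.1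

/-- The law of the random structure of a representation is given by the labelled densities. -/
lemma Rep.Represents.lab_eq {R : Rep L} {φ : Obj L} (h : R.Represents φ) (k : ℕ)
    (M : Str L (Fin k)) : lab φ k M = (cubeMeasure k).real {θ | R.str θ = M} := by
  classical
  have hcount : ∀ θ : Cube (Fin k),
      ((Finset.univ.filter fun σ : Fin k ≃ Fin k =>
        (R.str θ).comap σ.toEmbedding = M).card : ℝ) =
      aut M * Set.indicator {θ | Iso M (R.str θ)} 1 θ := by
    intro θ
    by_cases hi : Iso M (R.str θ)
    · rw [Set.indicator_of_mem (by exact hi)]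
      simp only [Pi.one_apply, mul_one, Nat.cast_inj]
      obtain ⟨τ, hτ⟩ := hi
      rw [aut, Nat.card_eq_fintype_card, Fintype.card_subtype]
      refine Finset.card_bij' (fun σ _ => σ.trans τ.symm) (fun σ _ => σ.trans τ) ?_ ?_ ?_ ?_
      · intro σ hσ
        simp only [Finset.mem_filter, Finset.mem_univ, true_and] at hσ ⊢
        rw [← hτ, Str.comap_comap]
        have e1 : (σ.trans τ.symm).toEmbedding.trans τ.toEmbedding = σ.toEmbedding := by
          ext i; simp
        rw [e1, hσ, hτ]
      · intro σ hσ
        simp only [Finset.mem_filter, Finset.mem_univ, true_and] at hσ ⊢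
        have e1 : (σ.trans τ).toEmbedding = σ.toEmbedding.trans τ.toEmbedding := rfl
        rw [e1, ← Str.comap_comap, hτ, hσ]
      · intro σ _
        ext i; simp
      · intro σ _
        ext i; simp
    · rw [Set.indicator_of_notMem (by exact hi), mul_zero, Nat.cast_eq_zero, Finset.card_eq_zero,
        Finset.filter_eq_empty_iff]
      intro σ _ hσ
      exact hi ⟨σ, hσ⟩
  have hint : ∑ σ : Fin k ≃ Fin k,
      (cubeMeasure k).real {θ | (R.str θ).comap σ.toEmbedding = M} =
      aut M * (cubeMeasure k).real {θ | Iso M (R.str θ)} := by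
    have h1 : ∀ σ : Fin k ≃ Fin k,
        (cubeMeasure k).real {θ | (R.str θ).comap σ.toEmbedding = M} =
        ∫ θ, Set.indicator {θ | (R.str θ).comap σ.toEmbedding = M} (1 : Cube (Fin k) → ℝ) θ
          ∂(cubeMeasure k) := by
      intro σ
      rw [integral_indicator_one (R.measurableSet_of fun N => N.comap σ.toEmbedding = M)]
    simp_rw [h1]
    rw [← integral_finsetSum]
    · rw [← integral_indicator_one (R.measurableSet_of fun N => Iso M N), ← integral_const_mul]
      congr 1
      funext θ
      rw [← hcount θ, Finset.card_filter]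
      push_cast
      refine Finset.sum_congr rfl fun σ _ => ?_
      by_cases hσ : (R.str θ).comap σ.toEmbedding = M
      · rw [Set.indicator_of_mem (by exact hσ), if_pos hσ]; rfl
      · rw [Set.indicator_of_notMem (by exact hσ), if_neg hσ]
    · intro σ _
      exact (integrable_const 1).indicator
        (R.measurableSet_of fun N => N.comap σ.toEmbedding = M)
  have hinv : ∀ σ : Fin k ≃ Fin k,
      (cubeMeasure k).real {θ | (R.str θ).comap σ.toEmbedding = M} =
      (cubeMeasure k).real {θ | R.str θ = M} := by
    intro σ
    have h1 : {θ : Cube (Fin k) | (R.str θ).comap σ.toEmbedding = M} =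
        Cube.comap σ.toEmbedding ⁻¹' {θ | R.str θ = M} := by
      ext θ
      simp only [Set.mem_ofPred_eq, Set.mem_preimage, Rep.str_comap]
    rw [h1, measureReal_def, measureReal_def,
      (Cube.mp_comap σ.toEmbedding).measure_preimage (R.measurableSet_str M).nullMeasurableSet]
  simp_rw [hinv] at hint
  rw [Finset.sum_const, Finset.card_univ, Fintype.card_perm, Fintype.card_fin, nsmul_eq_mul]
    at hint
  rw [lab, h k M, div_mul_eq_mul_div, ← hint]
  have h3 : (k.factorial : ℝ) ≠ 0 := by exact_mod_cast k.factorial_pos.ne'
  field_simp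

end Pool.Agent.Lib.MP_e98621_co
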