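import Mathlib
import Pool.Agent.Lib.MP_e98621_co.Basic

/-!
# The separating random structure

For every unordered pair `{a,b}` and every injective `q`-tuple `c` of other vertices there is a
hidden element of `ℤ/4`, written as `(p,y) ∈ (ℤ/2)²`, where exchanging `a` and `b` acts by the
translation by `1`, i.e. by `T(p,y) = (p+1, y+p)`.  The structure only records
`E(a,b,c) = p` and `D(a,b,c,c') = y_c + y_{c'}`.
-/

namespace Pool.Agent.Lib.MP_e98621_co

open MeasureTheory Filter Topology

/-- The two predicate symbols. -/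
inductive Sym : Type
  | E
  | D
deriving DecidableEq

instance : Finite Sym :=
  Finite.of_injective (fun s : Sym => match s with | .E => true | .D => false) (by
    rintro (_ | _) (_ | _) <;> simp)

/-- The arities `q + 2` of `E` and `2 q + 2` of `D`. -/
def arK (q : ℕ) : Sym → ℕ
  | .E => q + 2
  | .D => 2 * q + 2

/-- The language with the predicate symbols `E` and `D`. -/
def LK (q : ℕ) : Lang where
  ι := Sym
  fin := inferInstance
  ar := arK q
  ar_pos := by
    rintro (_ | _) <;> simp [arK]

variable {q : ℕ} {V W : Type}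

/-- Injective `(q+2)`-tuples. -/
abbrev Tup (q : ℕ) (V : Type) : Type := Fin (q + 2) ↪ V

/-- Injective `(2q+2)`-tuples. -/
abbrev Tup2 (q : ℕ) (V : Type) : Type := Fin (2 * q + 2) ↪ V

/-- The predicate `E` of a structure. -/
def Str.E (κ : Str (LK q) V) (β : Tup q V) : Prop := κ Sym.E β

/-- The predicate `D` of a structure. -/
def Str.D (κ : Str (LK q) V) (α : Tup2 q V) : Prop := κ Sym.D α

/-- The structure with given predicates. -/
def mkK (E : Tup q V → Prop) (D : Tup2 q V → Prop) : Str (LK q) V
  | Sym.E => E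
  | Sym.D => D

lemma mkK_E (E : Tup q V → Prop) (D : Tup2 q V → Prop) (β : Tup q V) :
    (mkK E D).E β = E β := rfl

lemma mkK_D (E : Tup q V → Prop) (D : Tup2 q V → Prop) (α : Tup2 q V) :
    (mkK E D).D α = D α := rfl

lemma Str.extK {κ κ' : Str (LK q) V} (hE : ∀ β, κ.E β ↔ κ'.E β) (hD : ∀ α, κ.D α ↔ κ'.D α) :
    κ = κ' := by
  apply Str.ext
  rintro (_ | _) α
  · exact hE α
  · exact hD α

lemma Str.comap_E (f : V ↪ W) (κ : Str (LK q) W) (β : Tup q V) :
    (κ.comap f).E β = κ.E (β.trans f) := rfl

lemma Str.comap_D (f : V ↪ W) (κ : Str (LK q) W) (α : Tup2 q V) :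
    (κ.comap f).D α = κ.D (α.trans f) := rfl

/-- The positions of `(a, b, c)` in `(a, b, c, c')`. -/
def e1 (q : ℕ) : Fin (q + 2) ↪ Fin (2 * q + 2) :=
  ⟨fun i => ⟨i.1, by have := i.2; omega⟩, fun i j h => by
    apply Fin.ext
    simpa using h⟩

/-- The positions of `(a, b, c')` in `(a, b, c, c')`. -/
def e2 (q : ℕ) : Fin (q + 2) ↪ Fin (2 * q + 2) :=
  ⟨fun i => ⟨if i.1 < 2 then i.1 else i.1 + q, by have := i.2; split_ifs <;> omega⟩,
    fun i j h => by
      apply Fin.ext
      simp only [Fin.mk.injEq] at h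
      split_ifs at h <;> omega⟩

/-- The exchange of the first two entries. -/
def sw (q : ℕ) : Fin (q + 2) ↪ Fin (q + 2) := (Equiv.swap 0 1).toEmbedding

/-- The tuple with the first two entries exchanged. -/
def swp (β : Tup q V) : Tup q V := (sw q).trans β

lemma swp_swp (β : Tup q V) : swp (swp β) = β := by
  ext i
  simp [swp, sw]

lemma swp_zero (β : Tup q V) : swp β 0 = β 1 := by
  simp [swp, sw]

lemma swp_one (β : Tup q V) : swp β 1 = β 0 := by
  simp [swp, sw]

lemma swp_trans (β : Tup q V) (g : V ↪ W) : (swp β).trans g = swp (β.trans g) := rfl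

lemma swp_ne (β : Tup q V) : swp β ≠ β := by
  intro h
  have := DFunLike.congr_fun h 0
  rw [swp_zero] at this
  exact absurd (β.injective this) (by simp)

lemma swp_inj {β γ : Tup q V} (h : swp β = swp γ) : β = γ := by
  rw [← swp_swp β, h, swp_swp]

/-- The values of the hidden variables. -/
abbrev Z4 : Type := ZMod 2 × ZMod 2

/-- Translation by `1` in `ℤ/4`, in binary coordinates. -/
def T (v : Z4) : Z4 := (v.1 + 1, v.2 + v.1)

/-- The linear part of `T`. -/
def T0 (v : Z4) : Z4 := (v.1, v.2 + v.1)

lemma T_add (a b : Z4) : T (a + b) = T a + T0 b := by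
  revert a b; decide

lemma T_T (a : Z4) : T (T a) = a + (0, 1) := by
  revert a; decide

lemma T0_T0 (a : Z4) : T0 (T0 a) = a := by
  revert a; decide

lemma T_bij : Function.Bijective T := by
  decide

/-- The hidden variables on the vertex set `{0, …, n-1}`. -/
abbrev Hid (q n : ℕ) : Type := Tup q (Fin n) → Z4

/-- The hidden variable of an arbitrary tuple: only those of the tuples with increasing first two
entries are used. -/
def hid {n : ℕ} (x : Hid q n) (β : Tup q (Fin n)) : Z4 :=
  if β 0 < β 1 then x β else T (x (swp β))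

/-- The structure of the hidden variables. -/
def K {n : ℕ} (x : Hid q n) : Str (LK q) (Fin n) :=
  mkK (fun β => (hid x β).1 = 1) (fun α => (hid x ((e1 q).trans α)).2 + (hid x ((e2 q).trans α)).2 = 1)

lemma K_congr {n : ℕ} {x x' : Hid q n} (h : ∀ β : Tup q (Fin n), β 0 < β 1 → x β = x' β) :
    K x = K x' := by
  have h2 : ∀ β : Tup q (Fin n), hid x β = hid x' β := by
    intro β
    unfold hid
    split_ifs with h0
    · exact h β h0
    · rw [h]
      rw [swp_zero, swp_one]
      exact lt_of_le_of_ne (not_lt.mp h0) fun h' => by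
        have := β.injective h'
        simp at this
  apply Str.extK
  · intro β
    simp only [K, mkK_E, h2]
  · intro α
    simp only [K, mkK_D, h2]

lemma e1_zero : e1 q 0 = 0 := rfl

lemma e1_one : e1 q 1 = 1 := rfl

lemma e2_zero : e2 q 0 = 0 := rfl

lemma e2_one : e2 q 1 = 1 := rfl

/-- The coordinates used by the restriction to a subset. -/
noncomputable def iotaK {k n : ℕ} (g : Fin k ↪ Fin n) (β : Tup q (Fin k)) : Tup q (Fin n) := by
  classical
  exact if (β 0 < β 1 ↔ g (β 0) < g (β 1)) then β.trans g else swp (β.trans g)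

/-- The transformation of the coordinates used by the restriction to a subset. -/
noncomputable def tauK {k n : ℕ} (g : Fin k ↪ Fin n) (β : Tup q (Fin k)) : Z4 ≃ Z4 := by
  classical
  exact if (β 0 < β 1 ↔ g (β 0) < g (β 1)) then Equiv.refl _ else Equiv.ofBijective T T_bij

/-- The hidden variables of the restriction. -/
noncomputable def rho {k n : ℕ} (g : Fin k ↪ Fin n) (x : Hid q n) : Hid q k :=
  fun β => tauK g β (x (iotaK g β))

lemma emb_lt_iff {k : ℕ} (β : Tup q (Fin k)) : (β 1 < β 0 ↔ ¬ β 0 < β 1) := by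
  have h01 : β 0 ≠ β 1 := fun h' => by
    have := β.injective h'
    simp at this
  constructor
  · intro h; exact not_lt.mpr h.le
  · intro h; exact lt_of_le_of_ne (not_lt.mp h) h01.symm

lemma iotaK_injective {k n : ℕ} (g : Fin k ↪ Fin n) :
    Function.Injective (iotaK g : Tup q (Fin k) → Tup q (Fin n)) := by
  classical
  intro β γ h
  have hc : ∀ δ : Tup q (Fin k), ((swp δ) 0 < (swp δ) 1 ↔ g ((swp δ) 0) < g ((swp δ) 1)) ↔
      (δ 0 < δ 1 ↔ g (δ 0) < g (δ 1)) := by
    intro δ
    rw [swp_zero, swp_one]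
    have h1 := emb_lt_iff δ
    have h2 := emb_lt_iff (δ.trans g)
    simp only [Function.Embedding.trans_apply] at h2
    rw [h1, h2, not_iff_not]
  unfold iotaK at h
  split_ifs at h with h1 h2 h2
  · refine DFunLike.ext _ _ fun i => ?_
    exact g.injective (DFunLike.congr_fun h i)
  · exfalso
    have : β = swp γ := by
      refine DFunLike.ext _ _ fun i => ?_
      have := DFunLike.congr_fun h i
      rw [← swp_trans] at this
      exact g.injective this
    subst this
    exact h2 ((hc γ).mp h1)
  · exfalso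
    have : γ = swp β := by
      refine DFunLike.ext _ _ fun i => ?_
      have := DFunLike.congr_fun h i
      rw [← swp_trans] at this
      exact (g.injective this).symm
    subst this
    exact h1 ((hc β).mp h2)
  · have := swp_inj h
    refine DFunLike.ext _ _ fun i => ?_
    exact g.injective (DFunLike.congr_fun this i)

lemma hid_rho {k n : ℕ} (g : Fin k ↪ Fin n) (x : Hid q n) (β : Tup q (Fin k)) :
    hid (rho g x) β = if (¬ β 0 < β 1 ∧ g (β 0) < g (β 1)) then hid x (β.trans g) + (0, 1)
      else hid x (β.trans g) := by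
  classical
  have h1 := emb_lt_iff β
  have h2 := emb_lt_iff (β.trans g)
  simp only [Function.Embedding.trans_apply] at h2
  by_cases hβ : β 0 < β 1
  · by_cases hg : g (β 0) < g (β 1)
    · simp [hid, rho, iotaK, tauK, hβ, hg]
    · simp [hid, rho, iotaK, tauK, hβ, hg]
  · by_cases hg : g (β 0) < g (β 1)
    · have hβ' : β 1 < β 0 := h1.mpr hβ
      have hg' : ¬ g (β 1) < g (β 0) := not_lt.mpr hg.le
      have e0 : hid (rho g x) β = T (T (x (swp ((swp β).trans g)))) := by
        simp only [hid, rho, iotaK, tauK, if_neg hβ, swp_zero, swp_one]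
        simp [hβ', hg']
      rw [e0, swp_trans, swp_swp, T_T, if_pos ⟨hβ, hg⟩]
      simp only [hid, Function.Embedding.trans_apply, if_pos hg]
    · have hβ' : β 1 < β 0 := h1.mpr hβ
      have hg' : g (β 1) < g (β 0) := h2.mpr hg
      have e0 : hid (rho g x) β = T (x ((swp β).trans g)) := by
        simp only [hid, rho, iotaK, tauK, if_neg hβ, swp_zero, swp_one]
        simp [hβ', hg']
      rw [e0, swp_trans, if_neg (fun h => hg h.2)]
      simp only [hid, Function.Embedding.trans_apply, if_neg hg]

lemma K_comap {k n : ℕ} (g : Fin k ↪ Fin n) (x : Hid q n) : (K x).comap g = K (rho g x) := by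
  apply Str.extK
  · intro β
    rw [Str.comap_E]
    simp only [K, mkK_E]
    rw [hid_rho]
    split_ifs with h
    · simp
    · rfl
  · intro α
    rw [Str.comap_D]
    simp only [K, mkK_D]
    rw [hid_rho, hid_rho]
    simp only [Function.Embedding.trans_apply, e1_zero, e1_one, e2_zero, e2_one]
    have a1 : ((e1 q).trans α).trans g = (e1 q).trans (α.trans g) := rfl
    have a2 : ((e2 q).trans α).trans g = (e2 q).trans (α.trans g) := rfl
    rw [a1, a2]
    split_ifs with h
    · have : ∀ a b : Z4, ((a + (0, 1)).2 + (b + (0, 1)).2 = 1 ↔ a.2 + b.2 = 1) := by decide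
      rw [this]
    · rfl

/-! ### Averages over the hidden variables -/

/-- Average over the functions `J → S`. -/
noncomputable def avg {X : Type} [Fintype X] (h : X → ℝ) : ℝ := (∑ x : X, h x) / Fintype.card X

lemma avg_balanced {J J' S : Type} [Fintype J] [Fintype J'] [DecidableEq J] [DecidableEq J']
    [Fintype S] [Nonempty S] (ι : J' → J) (hι : Function.Injective ι) (t : J' → S ≃ S)
    (h : (J' → S) → ℝ) :
    avg (fun x : J → S => h fun j => t j (x (ι j))) = avg h := by
  classical
  let e : (J → S) ≃ (J' → S) × ({j : J // ¬ j ∈ Set.range ι} → S) :=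
    (Equiv.piEquivPiSubtypeProd (fun j => j ∈ Set.range ι) fun _ => S).trans
      (Equiv.prodCongr
        ((Equiv.piCongrLeft (fun _ => S) (Equiv.ofInjective ι hι)).symm.trans
          (Equiv.piCongrRight t)) (Equiv.refl _))
  have he : ∀ x j, (e x).1 j = t j (x (ι j)) := by
    intro x j
    rfl
  have h1 : ∑ x : J → S, h (fun j => t j (x (ι j))) =
      ∑ z : (J' → S) × ({j : J // ¬ j ∈ Set.range ι} → S), h z.1 := by
    rw [← e.sum_comp (fun z => h z.1)]
    rfl
  unfold avg
  rw [h1, Fintype.card_congr e, Fintype.card_prod, Fintype.sum_prod_type]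
  simp only [Finset.sum_const, Finset.card_univ, nsmul_eq_mul]
  rw [← Finset.mul_sum]
  push_cast
  rw [mul_comm ((Fintype.card (J' → S) : ℝ))]
  rw [mul_div_mul_left]
  have : 0 < Fintype.card ({j : J // ¬ j ∈ Set.range ι} → S) := Fintype.card_pos
  positivity

lemma avg_rho {k n : ℕ} (g : Fin k ↪ Fin n) (h : Hid q k → ℝ) :
    avg (fun x : Hid q n => h (rho g x)) = avg h :=
  avg_balanced (iotaK g) (iotaK_injective g) (tauK g) h

/-- The labelled densities of the separating object. -/
noncomputable def labK (q : ℕ) (k : ℕ) (M : Str (LK q) (Fin k)) : ℝ :=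
  avg fun x : Hid q k => if K x = M then 1 else 0

lemma sum_labK (k : ℕ) (F : Str (LK q) (Fin k) → ℝ) :
    ∑ M, labK q k M * F M = avg fun x : Hid q k => F (K x) := by
  classical
  unfold labK avg
  simp_rw [div_mul_eq_mul_div, Finset.sum_mul, ← Finset.sum_div]
  congr 1
  rw [Finset.sum_comm]
  refine Finset.sum_congr rfl fun x _ => ?_
  simp [ite_mul]

lemma labK_consistent (q : ℕ) : Consistent (labK q) := by
  intro j k f F
  rw [sum_labK k (fun M => F (M.comap f)), sum_labK]
  simp_rw [K_comap]
  exact avg_rho f fun x => F (K x)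

/-- The separating object. -/
noncomputable def phiK (q : ℕ) : Obj (LK q) :=
  fun k M => k.factorial / aut M * labK q k M

lemma lab_phiK (q k : ℕ) (M : Str (LK q) (Fin k)) : lab (phiK q) k M = labK q k M := by
  have h2 : (aut M : ℝ) ≠ 0 := by exact_mod_cast (aut_pos M).ne'
  have h3 : (k.factorial : ℝ) ≠ 0 := by exact_mod_cast k.factorial_pos.ne'
  unfold lab phiK
  field_simp

/-! ### Axioms of the structure -/

lemma hid_swp {n : ℕ} (x : Hid q n) (β : Tup q (Fin n)) :
    (β 0 < β 1 ∧ hid x (swp β) = T (hid x β)) ∨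
      (¬ β 0 < β 1 ∧ hid x β = T (hid x (swp β))) := by
  have h1 := emb_lt_iff β
  by_cases h : β 0 < β 1
  · left
    refine ⟨h, ?_⟩
    have h' : ¬ β 1 < β 0 := not_lt.mpr h.le
    simp only [hid, swp_zero, swp_one, if_pos h, if_neg h', swp_swp]
  · right
    refine ⟨h, ?_⟩
    simp only [hid, swp_zero, swp_one, if_neg h, if_pos (h1.mpr h)]

lemma K_E_swp {n : ℕ} (x : Hid q n) (β : Tup q (Fin n)) : (K x).E (swp β) ↔ ¬ (K x).E β := by
  simp only [K, mkK_E]
  rcases hid_swp x β with ⟨_, h⟩ | ⟨_, h⟩
  · rw [h]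
    generalize hid x β = a
    revert a
    decide
  · rw [h]
    generalize hid x (swp β) = a
    revert a
    decide

/-- The exchange of the first two entries of a `(2q+2)`-tuple. -/
def swp2 (α : Tup2 q V) : Tup2 q V := (Equiv.swap 0 1).toEmbedding.trans α

lemma e1_swp2 (α : Tup2 q V) : (e1 q).trans (swp2 α) = swp ((e1 q).trans α) := by
  ext i
  simp only [swp2, swp, sw, Function.Embedding.trans_apply, Equiv.coe_toEmbedding]
  congr 1
  rcases eq_or_ne i 0 with rfl | h0
  · rw [Equiv.swap_apply_left, e1_zero, Equiv.swap_apply_left, e1_one]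
  · rcases eq_or_ne i 1 with rfl | h1
    · rw [Equiv.swap_apply_right, e1_one, Equiv.swap_apply_right, e1_zero]
    · rw [Equiv.swap_apply_of_ne_of_ne h0 h1, Equiv.swap_apply_of_ne_of_ne]
      · rw [← e1_zero]; exact fun h => h0 ((e1 q).injective h)
      · rw [← e1_one]; exact fun h => h1 ((e1 q).injective h)

lemma e2_swp2 (α : Tup2 q V) : (e2 q).trans (swp2 α) = swp ((e2 q).trans α) := by
  ext i
  simp only [swp2, swp, sw, Function.Embedding.trans_apply, Equiv.coe_toEmbedding]
  congr 1
  rcases eq_or_ne i 0 with rfl | h0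
  · rw [Equiv.swap_apply_left, e2_zero, Equiv.swap_apply_left, e2_one]
  · rcases eq_or_ne i 1 with rfl | h1
    · rw [Equiv.swap_apply_right, e2_one, Equiv.swap_apply_right, e2_zero]
    · rw [Equiv.swap_apply_of_ne_of_ne h0 h1, Equiv.swap_apply_of_ne_of_ne]
      · rw [← e2_zero]; exact fun h => h0 ((e2 q).injective h)
      · rw [← e2_one]; exact fun h => h1 ((e2 q).injective h)

lemma K_D_swp {n : ℕ} (x : Hid q n) (α : Tup2 q (Fin n)) :
    (K x).D (swp2 α) ↔
      ((K x).D α ↔ ((K x).E ((e1 q).trans α) ↔ (K x).E ((e2 q).trans α))) := by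
  simp only [K, mkK_E, mkK_D, e1_swp2, e2_swp2]
  have h1 := hid_swp x ((e1 q).trans α)
  have h2 := hid_swp x ((e2 q).trans α)
  simp only [Function.Embedding.trans_apply, e1_zero, e1_one] at h1
  simp only [Function.Embedding.trans_apply, e2_zero, e2_one] at h2
  rcases h1 with ⟨h1, h1'⟩ | ⟨h1, h1'⟩
  · rcases h2 with ⟨h2, h2'⟩ | ⟨h2, h2'⟩
    · rw [h1', h2']
      generalize hid x ((e1 q).trans α) = a
      generalize hid x ((e2 q).trans α) = b
      revert a b
      decide
    · exact absurd h1 h2
  · rcases h2 with ⟨h2, h2'⟩ | ⟨h2, h2'⟩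
    · exact absurd h2 h1
    · rw [h1', h2']
      generalize hid x (swp ((e1 q).trans α)) = a
      generalize hid x (swp ((e2 q).trans α)) = b
      revert a b
      decide

lemma K_D_cocycle {n : ℕ} (x : Hid q n) {α12 α23 α13 : Tup2 q (Fin n)}
    (h1 : (e1 q).trans α12 = (e1 q).trans α13) (h2 : (e2 q).trans α12 = (e1 q).trans α23)
    (h3 : (e2 q).trans α23 = (e2 q).trans α13) :
    (K x).D α13 ↔ ¬ ((K x).D α12 ↔ (K x).D α23) := by
  simp only [K, mkK_D, h1, h2, h3]
  generalize hid x ((e1 q).trans α13) = a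
  generalize hid x ((e1 q).trans α23) = b
  generalize hid x ((e2 q).trans α13) = c
  revert a b c
  decide

end Pool.Agent.Lib.MP_e98621_co
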