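import Mathlib
import Pool.Agent.Lib.MP_e98621_co.KStruct

/-!
# The separating object is a limit object
-/

namespace Pool.Agent.Lib.MP_e98621_co

open Filter Topology

variable {q : ℕ}

/-- The theory without further axioms. -/
def freeTheory (L : Lang) : CanonicalTheory L where
  model _ _ := True
  hereditary _ _ _ := trivial

section avg

variable {X : Type} [Fintype X]

lemma avg_const [Nonempty X] (c : ℝ) : avg (fun _ : X => c) = c := by
  unfold avg
  simp only [Finset.sum_const, Finset.card_univ, nsmul_eq_mul]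
  have : (Fintype.card X : ℝ) ≠ 0 := by exact_mod_cast Fintype.card_ne_zero
  field_simp

lemma avg_add (f g : X → ℝ) : avg (fun x => f x + g x) = avg f + avg g := by
  unfold avg
  rw [Finset.sum_add_distrib, add_div]

lemma avg_sub (f g : X → ℝ) : avg (fun x => f x - g x) = avg f - avg g := by
  unfold avg
  rw [Finset.sum_sub_distrib, sub_div]

lemma avg_sum {ι : Type} (s : Finset ι) (f : ι → X → ℝ) :
    avg (fun x => ∑ i ∈ s, f i x) = ∑ i ∈ s, avg (f i) := by
  unfold avg
  rw [Finset.sum_comm, Finset.sum_div]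

lemma avg_mul_const (f : X → ℝ) (c : ℝ) : avg (fun x => f x * c) = avg f * c := by
  unfold avg
  rw [← Finset.sum_mul]
  ring

lemma avg_mono {f g : X → ℝ} (h : ∀ x, f x ≤ g x) : avg f ≤ avg g := by
  unfold avg
  exact div_le_div_of_nonneg_right (Finset.sum_le_sum fun x _ => h x) (by positivity)

lemma exists_le_avg [Nonempty X] (f : X → ℝ) : ∃ x, f x ≤ avg f := by
  have h : ∑ x : X, f x ≤ ∑ _x : X, avg f := by
    simp only [Finset.sum_const, Finset.card_univ, nsmul_eq_mul]
    unfold avg
    have : (Fintype.card X : ℝ) ≠ 0 := by exact_mod_cast Fintype.card_ne_zero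
    field_simp
    exact le_rfl
  obtain ⟨x, _, hx⟩ := Finset.exists_le_of_sum_le Finset.univ_nonempty h
  exact ⟨x, hx⟩

end avg

lemma avg_pair {J S : Type} [Fintype J] [DecidableEq J] [Fintype S] [Nonempty S]
    (F G : (J → S) → ℝ) :
    avg (fun z : J ⊕ J → S => F (fun j => z (Sum.inl j)) * G (fun j => z (Sum.inr j))) =
      avg F * avg G := by
  classical
  unfold avg
  rw [div_mul_div_comm, Finset.sum_mul_sum, ← Finset.sum_product',
    ← (Equiv.sumArrowEquivProdArrow J J S).symm.sum_comp
    (fun z : J ⊕ J → S => F (fun j => z (Sum.inl j)) * G (fun j => z (Sum.inr j)))]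
  congr 1
  rw [Fintype.card_congr (Equiv.sumArrowEquivProdArrow J J S), Fintype.card_prod]
  push_cast
  rfl

lemma avg_rho_pair {k n : ℕ} (g h : Fin k ↪ Fin n) (hgh : ∀ i j, g i ≠ h j)
    (F G : Hid q k → ℝ) :
    avg (fun x : Hid q n => F (rho g x) * G (rho h x)) = avg F * avg G := by
  classical
  rw [← avg_pair F G]
  let ι : Tup q (Fin k) ⊕ Tup q (Fin k) → Tup q (Fin n) := Sum.elim (iotaK g) (iotaK h)
  let t : Tup q (Fin k) ⊕ Tup q (Fin k) → Z4 ≃ Z4 := Sum.elim (tauK g) (tauK h)
  have hr : ∀ (f : Fin k ↪ Fin n) (β : Tup q (Fin k)), ∃ i, iotaK f β 0 = f i := by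
    intro f β
    unfold iotaK
    split_ifs
    · exact ⟨β 0, rfl⟩
    · exact ⟨β 1, by rw [swp_zero]; rfl⟩
  have hι : Function.Injective ι := by
    rintro (β | β) (γ | γ) hβγ
    · exact congrArg Sum.inl (iotaK_injective g hβγ)
    · exfalso
      obtain ⟨i, hi⟩ := hr g β
      obtain ⟨j, hj⟩ := hr h γ
      have : iotaK g β = iotaK h γ := hβγ
      exact hgh i j (by rw [← hi, ← hj, this])
    · exfalso
      obtain ⟨i, hi⟩ := hr g γ
      obtain ⟨j, hj⟩ := hr h β
      have : iotaK h β = iotaK g γ := hβγ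
      exact hgh i j (by rw [← hi, ← hj, this])
    · exact congrArg Sum.inr (iotaK_injective h hβγ)
  exact avg_balanced ι hι t
    (fun z : Tup q (Fin k) ⊕ Tup q (Fin k) → Z4 =>
      F (fun j => z (Sum.inl j)) * G (fun j => z (Sum.inr j)))

/-- The number of injections with a prescribed value. -/
lemma card_emb_value {k n : ℕ} (j : Fin k) (a : Fin n) :
    n * (Finset.univ.filter fun h : Fin k ↪ Fin n => h j = a).card =
      Fintype.card (Fin k ↪ Fin n) := by
  classical
  have hc : ∀ b, (Finset.univ.filter fun h : Fin k ↪ Fin n => h j = a).card =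
      (Finset.univ.filter fun h : Fin k ↪ Fin n => h j = b).card := by
    intro b
    refine Finset.card_bij' (fun h _ => h.trans (Equiv.swap a b).toEmbedding)
      (fun h _ => h.trans (Equiv.swap a b).toEmbedding) ?_ ?_ ?_ ?_
    · intro h hh
      simp only [Finset.mem_filter, Finset.mem_univ, true_and] at hh ⊢
      simp [hh]
    · intro h hh
      simp only [Finset.mem_filter, Finset.mem_univ, true_and] at hh ⊢
      simp [hh]
    · intro h _
      ext i
      simp
    · intro h _
      ext i
      simp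
  have h1 : Fintype.card (Fin k ↪ Fin n) =
      ∑ b : Fin n, (Finset.univ.filter fun h : Fin k ↪ Fin n => h j = b).card := by
    rw [← Finset.card_univ]
    exact Finset.card_eq_sum_card_fiberwise (f := fun h : Fin k ↪ Fin n => h j)
      (fun _ _ => Finset.mem_coe.mpr (Finset.mem_univ _))
  rw [h1, ← Finset.sum_congr rfl fun b _ => hc b]
  simp

/-- Most pairs of injections have disjoint ranges. -/
lemma card_meet {k n : ℕ} (g : Fin k ↪ Fin n) :
    n * (Finset.univ.filter fun h : Fin k ↪ Fin n => ∃ i j, g i = h j).card ≤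
      k * k * Fintype.card (Fin k ↪ Fin n) := by
  classical
  have hsub : (Finset.univ.filter fun h : Fin k ↪ Fin n => ∃ i j, g i = h j) ⊆
      (Finset.univ : Finset (Fin k × Fin k)).biUnion fun ij =>
        Finset.univ.filter fun h : Fin k ↪ Fin n => h ij.2 = g ij.1 := by
    intro h hh
    simp only [Finset.mem_filter, Finset.mem_univ, true_and, Finset.mem_biUnion] at hh ⊢
    obtain ⟨i, j, hij⟩ := hh
    exact ⟨(i, j), hij.symm⟩
  calc n * (Finset.univ.filter fun h : Fin k ↪ Fin n => ∃ i j, g i = h j).card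
      ≤ n * ∑ ij : Fin k × Fin k,
          (Finset.univ.filter fun h : Fin k ↪ Fin n => h ij.2 = g ij.1).card :=
        Nat.mul_le_mul_left _ ((Finset.card_le_card hsub).trans Finset.card_biUnion_le)
    _ = ∑ _ij : Fin k × Fin k, Fintype.card (Fin k ↪ Fin n) := by
        rw [Finset.mul_sum]
        exact Finset.sum_congr rfl fun ij _ => card_emb_value ij.2 (g ij.1)
    _ = k * k * Fintype.card (Fin k ↪ Fin n) := by
        simp [Finset.card_univ, Fintype.card_prod]

lemma labK_nonneg (k : ℕ) (M : Str (LK q) (Fin k)) : 0 ≤ labK q k M := by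
  unfold labK avg
  refine div_nonneg (Finset.sum_nonneg fun x _ => ?_) (by positivity)
  split_ifs <;> norm_num

lemma labK_le_one (k : ℕ) (M : Str (LK q) (Fin k)) : labK q k M ≤ 1 := by
  have h : labK q k M ≤ avg (fun _ : Hid q k => (1 : ℝ)) := avg_mono fun x => by
    split_ifs <;> norm_num
  rwa [avg_const] at h

/-- Second moment bound. -/
lemma variance_bound {k n : ℕ} (hkn : k ≤ n) (hn : 0 < n) (M : Str (LK q) (Fin k)) :
    avg (fun x : Hid q n => (dens M (K x) - labK q k M) ^ 2) ≤ k * k / n := by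
  classical
  set c := labK q k M with hc
  have hne : Nonempty (Fin k ↪ Fin n) := ⟨Fin.castLEEmb hkn⟩
  set E : ℝ := (Fintype.card (Fin k ↪ Fin n) : ℝ) with hE
  have hEpos : 0 < E := by
    rw [hE]; exact_mod_cast Fintype.card_pos
  let Y : (Fin k ↪ Fin n) → Hid q n → ℝ := fun g x => (if K (rho g x) = M then 1 else 0) - c
  have hdens : ∀ x : Hid q n, dens M (K x) - c = (∑ g, Y g x) / E := by
    intro x
    have h1 := dens_expect (k := k) (K x) (fun N => if N = M then (1 : ℝ) else 0)
    simp only [mul_ite, mul_one, mul_zero, Finset.sum_ite_eq', Finset.mem_univ, if_true,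
      K_comap] at h1
    rw [h1]
    simp only [Y]
    rw [Finset.sum_sub_distrib, Finset.sum_const, Finset.card_univ, nsmul_eq_mul, sub_div, ← hE]
    field_simp
  have hsq : ∀ x : Hid q n, (dens M (K x) - c) ^ 2 =
      ∑ g, ∑ h, Y g x * Y h x * (1 / E ^ 2) := by
    intro x
    rw [hdens x, div_pow, sq (∑ g, Y g x), Finset.sum_mul_sum]
    simp_rw [← Finset.sum_mul]
    rw [mul_one_div]
  have hY0 : avg (fun x : Hid q k => (if K x = M then (1 : ℝ) else 0) - c) = 0 := by
    rw [avg_sub, avg_const]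
    exact sub_self _
  have hY1 : ∀ g x, |Y g x| ≤ 1 := by
    intro g x
    have h0 := labK_nonneg k M
    have h1 := labK_le_one k M
    rw [← hc] at h0 h1
    simp only [Y]
    split_ifs
    · rw [abs_le]; constructor <;> linarith
    · rw [abs_le]; constructor <;> linarith
  have hpair : ∀ g h : Fin k ↪ Fin n,
      avg (fun x => Y g x * Y h x) ≤ if ∃ i j, g i = h j then 1 else 0 := by
    intro g h
    split_ifs with hm
    · rw [← avg_const (X := Hid q n) 1]
      refine avg_mono fun x => ?_
      have := abs_mul (Y g x) (Y h x)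
      have h2 : |Y g x * Y h x| ≤ 1 := by
        rw [this]
        exact mul_le_one₀ (hY1 g x) (abs_nonneg _) (hY1 h x)
      exact (le_abs_self _).trans h2
    · push Not at hm
      refine le_of_eq ?_
      have := avg_rho_pair (q := q) g h hm
        (fun x => (if K x = M then (1 : ℝ) else 0) - c)
        (fun x => (if K x = M then (1 : ℝ) else 0) - c)
      rw [hY0, mul_zero] at this
      exact this
  have h1 : avg (fun x : Hid q n => (dens M (K x) - c) ^ 2) ≤
      ∑ g : Fin k ↪ Fin n, ∑ h : Fin k ↪ Fin n,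
        (if ∃ i j, g i = h j then (1 : ℝ) else 0) * (1 / E ^ 2) := by
    simp_rw [hsq]
    rw [avg_sum]
    refine Finset.sum_le_sum fun g _ => ?_
    rw [avg_sum]
    refine Finset.sum_le_sum fun h _ => ?_
    rw [avg_mul_const]
    exact mul_le_mul_of_nonneg_right (hpair g h) (by positivity)
  refine h1.trans ?_
  have h2 : ∀ g : Fin k ↪ Fin n, ∑ h : Fin k ↪ Fin n,
      (if ∃ i j, g i = h j then (1 : ℝ) else 0) * (1 / E ^ 2) ≤ (k * k / n) * (1 / E) := by
    intro g
    rw [← Finset.sum_mul, ← Finset.sum_filter, Finset.sum_const, nsmul_eq_mul, mul_one]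
    have h3 := card_meet g
    have h4 : (n : ℝ) * ((Finset.univ.filter fun h : Fin k ↪ Fin n => ∃ i j, g i = h j).card : ℝ)
        ≤ k * k * E := by
      rw [hE]
      exact_mod_cast h3
    have hn' : (0 : ℝ) < n := by exact_mod_cast hn
    rw [div_mul_div_comm, mul_one, mul_one_div, div_le_div_iff₀ (by positivity) (by positivity)]
    nlinarith [mul_le_mul_of_nonneg_right h4 hEpos.le]
  refine (Finset.sum_le_sum fun g _ => h2 g).trans (le_of_eq ?_)
  rw [Finset.sum_const, Finset.card_univ, nsmul_eq_mul, ← hE]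
  field_simp

lemma exists_good (q : ℕ) (m : ℕ) {ε : ℝ} (hε : 0 < ε) :
    ∃ n0 : ℕ, ∀ n ≥ n0, ∃ x : Hid q n, ∀ k ≤ m, ∀ M : Str (LK q) (Fin k),
      |dens M (K x) - labK q k M| ≤ ε := by
  classical
  set C : ℝ := ∑ k ∈ Finset.range (m + 1), ∑ _M : Str (LK q) (Fin k), (k * k : ℝ) with hC
  have hC0 : 0 ≤ C := Finset.sum_nonneg fun k _ => Finset.sum_nonneg fun M _ => by positivity
  obtain ⟨n1, hn1⟩ := exists_nat_gt (C / ε ^ 2)
  refine ⟨n1 + m + 1, fun n hn => ?_⟩
  have hnpos : 0 < n := by omega
  have hn' : (0 : ℝ) < n := by exact_mod_cast hnpos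
  obtain ⟨x, hx⟩ := exists_le_avg (fun x : Hid q n =>
    ∑ k ∈ Finset.range (m + 1), ∑ M : Str (LK q) (Fin k), (dens M (K x) - labK q k M) ^ 2)
  refine ⟨x, fun k hk M => ?_⟩
  have h1 : avg (fun x : Hid q n =>
      ∑ k ∈ Finset.range (m + 1), ∑ M : Str (LK q) (Fin k), (dens M (K x) - labK q k M) ^ 2)
      ≤ C / n := by
    rw [avg_sum, hC, Finset.sum_div]
    refine Finset.sum_le_sum fun k hk => ?_
    rw [avg_sum, Finset.sum_div]
    refine Finset.sum_le_sum fun M _ => ?_
    have hk' : k ≤ n := by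
      have := Finset.mem_range.mp hk
      omega
    exact variance_bound hk' hnpos M
  have h2 : (dens M (K x) - labK q k M) ^ 2 ≤ C / n := by
    refine le_trans ?_ (hx.trans h1)
    have hk' : k ∈ Finset.range (m + 1) := Finset.mem_range.mpr (by omega)
    refine le_trans ?_ (Finset.single_le_sum (f := fun k =>
      ∑ M : Str (LK q) (Fin k), (dens M (K x) - labK q k M) ^ 2)
      (fun k _ => Finset.sum_nonneg fun M _ => sq_nonneg _) hk')
    exact Finset.single_le_sum (f := fun M : Str (LK q) (Fin k) =>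
      (dens M (K x) - labK q k M) ^ 2) (fun M _ => sq_nonneg _) (Finset.mem_univ M)
  have h3 : C / n ≤ ε ^ 2 := by
    rw [div_le_iff₀ hn']
    rw [div_lt_iff₀ (by positivity)] at hn1
    have h4 : (n1 : ℝ) ≤ n := by exact_mod_cast (by omega : n1 ≤ n)
    nlinarith [mul_le_mul_of_nonneg_right h4 (sq_nonneg ε)]
  exact abs_le_of_sq_le_sq (h2.trans h3) hε.le

/-- The separating object is a limit object of the theory without further axioms. -/
theorem isLimitObject_phiK (q : ℕ) : IsLimitObject (freeTheory (LK q)) (phiK q) := by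
  classical
  have hg : ∀ m : ℕ, ∃ n0 : ℕ, ∀ n ≥ n0, ∃ x : Hid q n, ∀ k ≤ m, ∀ M : Str (LK q) (Fin k),
      |dens M (K x) - labK q k M| ≤ 1 / ((m : ℝ) + 1) :=
    fun m => exists_good q m (by positivity)
  choose n0 hn0 using hg
  let s : ℕ → ℕ := fun m => ∑ i ∈ Finset.range (m + 1), (n0 i + 1)
  have hs0 : ∀ m, s m ≥ n0 m := by
    intro m
    have : n0 m + 1 ≤ s m := Finset.single_le_sum (f := fun i => n0 i + 1)
      (fun i _ => Nat.zero_le _) (Finset.mem_range.mpr (Nat.lt_succ_self m))
    omega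
  have hs1 : StrictMono s := by
    refine strictMono_nat_of_lt_succ fun m => ?_
    simp only [s]
    rw [Finset.sum_range_succ _ (m + 1)]
    omega
  choose x hx using fun m => hn0 m (s m) (hs0 m)
  refine ⟨fun m => ⟨s m, K (x m)⟩, fun m => trivial, converges_of_lab hs1 ?_⟩
  intro k M
  rw [lab_phiK]
  rw [tendsto_iff_dist_tendsto_zero]
  refine squeeze_zero' (Eventually.of_forall fun m => dist_nonneg) ?_
    (tendsto_one_div_add_atTop_nhds_zero_nat (𝕜 := ℝ))
  filter_upwards [eventually_ge_atTop k] with m hm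
  rw [Real.dist_eq]
  exact hx m k hm M

end Pool.Agent.Lib.MP_e98621_co
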