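import Mathlib
import Pool.Agent.Lib.MP_e98621_co.Limit

/-!
# Flips: changing one hidden variable
-/

namespace Pool.Agent.Lib.MP_e98621_co

open Filter Topology

variable {q : ℕ} {V W : Type}

/-- Add the mask `m` to the hidden variables. -/
def flip (m : Tup q V → Z4) (κ : Str (LK q) V) : Str (LK q) V :=
  mkK (fun γ => ¬ (κ.E γ ↔ (m γ).1 = 1))
    (fun α => ¬ (κ.D α ↔ (m ((e1 q).trans α)).2 + (m ((e2 q).trans α)).2 = 1))

lemma flip_flip (m : Tup q V → Z4) (κ : Str (LK q) V) : flip m (flip m κ) = κ := by
  apply Str.extK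
  · intro β
    simp only [flip, mkK_E]
    tauto
  · intro α
    simp only [flip, mkK_D]
    tauto

lemma flip_injective (m : Tup q V → Z4) : Function.Injective (flip m : Str (LK q) V → _) := by
  intro κ κ' h
  rw [← flip_flip m κ, h, flip_flip]

/-- The mask that changes the hidden variable of `β` by `v`. -/
noncomputable def site (β : Tup q V) (v : Z4) (γ : Tup q V) : Z4 := by
  classical
  exact if γ = β then v else if γ = swp β then T0 v else 0

lemma T0_zero : T0 0 = 0 := by decide

lemma site_swp (β : Tup q V) (v : Z4) (γ : Tup q V) : site β v (swp γ) = T0 (site β v γ) := by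
  classical
  unfold site
  by_cases h1 : γ = β
  · subst h1
    rw [if_neg (swp_ne γ), if_pos rfl, if_pos rfl]
  · by_cases h2 : γ = swp β
    · subst h2
      rw [swp_swp, if_pos rfl, if_neg (swp_ne β), if_pos rfl, T0_T0]
    · rw [if_neg, if_neg, if_neg h1, if_neg h2, T0_zero]
      · intro h
        exact h1 (swp_inj h)
      · intro h
        exact h2 (by rw [← h, swp_swp])

lemma site_trans (β : Tup q V) (v : Z4) (g : V ↪ W) (γ : Tup q V) :
    site (β.trans g) v (γ.trans g) = site β v γ := by
  classical
  have h : ∀ δ : Tup q V, γ.trans g = δ.trans g ↔ γ = δ := by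
    intro δ
    constructor
    · intro h
      refine DFunLike.ext _ _ fun i => ?_
      exact g.injective (DFunLike.congr_fun h i)
    · rintro rfl
      rfl
  unfold site
  rw [← swp_trans]
  simp only [h]

lemma comap_flip_site (β : Tup q V) (v : Z4) (g : V ↪ W) (κ : Str (LK q) W) :
    (flip (site (β.trans g) v) κ).comap g = flip (site β v) (κ.comap g) := by
  apply Str.extK
  · intro γ
    rw [Str.comap_E]
    simp only [flip, mkK_E]
    rw [site_trans]
    rfl
  · intro α
    rw [Str.comap_D]
    simp only [flip, mkK_D]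
    have a1 : (e1 q).trans (α.trans g) = ((e1 q).trans α).trans g := rfl
    have a2 : (e2 q).trans (α.trans g) = ((e2 q).trans α).trans g := rfl
    rw [a1, a2, site_trans, site_trans]
    rfl

lemma site_miss {β : Tup q W} (v : Z4) {g : V ↪ W} {w : W} (hw : ∃ i, β i = w)
    (hg : ∀ u, g u ≠ w) (γ : Tup q V) : site β v (γ.trans g) = 0 := by
  classical
  obtain ⟨i, hi⟩ := hw
  unfold site
  rw [if_neg, if_neg]
  · intro h
    have : (γ.trans g) (sw q i) = w := by
      rw [h]
      show β (sw q (sw q i)) = w
      have : sw q (sw q i) = i := by simp [sw]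
      rw [this, hi]
    exact hg _ this
  · intro h
    have : (γ.trans g) i = w := by rw [h, hi]
    exact hg _ this

lemma comap_flip_miss {β : Tup q W} (v : Z4) {g : V ↪ W} {w : W} (hw : ∃ i, β i = w)
    (hg : ∀ u, g u ≠ w) (κ : Str (LK q) W) :
    (flip (site β v) κ).comap g = κ.comap g := by
  apply Str.extK
  · intro γ
    rw [Str.comap_E, Str.comap_E]
    simp only [flip, mkK_E]
    rw [site_miss v hw hg]
    simp
  · intro α
    rw [Str.comap_D, Str.comap_D]
    simp only [flip, mkK_D]
    have a1 : (e1 q).trans (α.trans g) = ((e1 q).trans α).trans g := rfl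
    have a2 : (e2 q).trans (α.trans g) = ((e2 q).trans α).trans g := rfl
    rw [a1, a2, site_miss v hw hg, site_miss v hw hg]
    simp

lemma hid_add {n : ℕ} (x : Hid q n) {m : Tup q (Fin n) → Z4} (hm : ∀ γ, m (swp γ) = T0 (m γ))
    (γ : Tup q (Fin n)) : hid (x + m) γ = hid x γ + m γ := by
  unfold hid
  split_ifs
  · rfl
  · rw [Pi.add_apply, T_add, hm, T0_T0]

lemma K_add {n : ℕ} (x : Hid q n) {m : Tup q (Fin n) → Z4} (hm : ∀ γ, m (swp γ) = T0 (m γ)) :
    K (x + m) = flip m (K x) := by
  have h1 : ∀ a b : ZMod 2, (a + b = 1 ↔ ¬ (a = 1 ↔ b = 1)) := by decide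
  apply Str.extK
  · intro γ
    simp only [K, flip, mkK_E, hid_add x hm, Prod.fst_add]
    rw [h1]
  · intro α
    simp only [K, flip, mkK_D, hid_add x hm, Prod.snd_add]
    rw [← h1]
    refine iff_of_eq (congrArg (· = 1) ?_)
    ring

/-- A function that is invariant under all flips of single hidden variables is constant on the
support. -/
lemma const_of_flip {n : ℕ} (c : Str (LK q) (Fin n) → ℝ)
    (hc : ∀ (β : Tup q (Fin n)) (v : Z4) (κ : Str (LK q) (Fin n)), c (flip (site β v) κ) = c κ)
    (x x' : Hid q n) : c (K x) = c (K x') := by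
  classical
  have h1 : ∀ (d : Tup q (Fin n) → Z4) (S : Finset (Tup q (Fin n))),
      c (K (x + ∑ β ∈ S, site β (d β))) = c (K x) := by
    intro d S
    induction S using Finset.induction_on with
    | empty => simp
    | insert β S hβ ih =>
      rw [Finset.sum_insert hβ, add_comm (site β (d β)), ← add_assoc,
        K_add _ (site_swp β (d β)), hc, ih]
  have h2 := h1 (fun β => x' β - x β) (Finset.univ.filter fun β => β 0 < β 1)
  rw [← h2]
  congr 1
  apply K_congr
  intro γ hγ
  rw [Pi.add_apply, Finset.sum_apply, Finset.sum_eq_single γ]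
  · unfold site
    rw [if_pos rfl]
    abel
  · intro β hβ hne
    simp only [Finset.mem_filter, Finset.mem_univ, true_and] at hβ
    unfold site
    rw [if_neg (Ne.symm hne), if_neg]
    intro h
    rw [h, swp_zero, swp_one] at hγ
    exact absurd hγ (not_lt.mpr hβ.le)
  · intro h
    exact (h (by simp [hγ])).elim

end Pool.Agent.Lib.MP_e98621_co
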