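import Mathlib
import Pool.Agent.Lib.MP_e98621_co.Flip
import Pool.Agent.Lib.MP_e98621_co.CubeLemmas

/-!
# The joint expectation of a coupling and the coordinates of a representation
-/

namespace Pool.Agent.Lib.MP_e98621_co

open MeasureTheory Filter Topology

variable {q : ℕ} {L' : Lang} {V W : Type}

/-- The data of a coupling: labelled densities of the pairs of structures. -/
structure CoupData (q : ℕ) {L' : Lang} (R : Rep L')
    (Ξ : ∀ n, Str (LK q) (Fin n) → Str L' (Fin n) → ℝ) : Prop where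
  nonneg : ∀ n κ μ, 0 ≤ Ξ n κ μ
  cons : ∀ {j k : ℕ} (f : Fin j ↪ Fin k) (F : Str (LK q) (Fin j) → Str L' (Fin j) → ℝ),
    ∑ κ : Str (LK q) (Fin k), ∑ μ : Str L' (Fin k), Ξ k κ μ * F (κ.comap f) (μ.comap f) =
      ∑ κ : Str (LK q) (Fin j), ∑ μ : Str L' (Fin j), Ξ j κ μ * F κ μ
  left : ∀ n κ, ∑ μ, Ξ n κ μ = labK q n κ
  right : ∀ n μ, ∑ κ, Ξ n κ μ = (cubeMeasure n).real {θ | R.str θ = μ}

lemma Rep.measurable_str [Finite V] (R : Rep L') (g : Str L' V → ℝ) :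
    Measurable fun θ : Cube V => g (R.str θ) := by
  intro S _
  exact R.measurableSet_of fun M => g M ∈ S

lemma Rep.integral_str (R : Rep L') (n : ℕ) (g : Str L' (Fin n) → ℝ) :
    ∫ θ, g (R.str θ) ∂(cubeMeasure n) =
      ∑ μ, (cubeMeasure n).real {θ | R.str θ = μ} * g μ := by
  classical
  have h1 : ∀ θ : Cube (Fin n), g (R.str θ) =
      ∑ μ, Set.indicator {θ : Cube (Fin n) | R.str θ = μ} (fun _ => g μ) θ := by
    intro θ
    rw [Finset.sum_eq_single (R.str θ)]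
    · rw [Set.indicator_of_mem]
      rfl
    · intro μ _ hμ
      rw [Set.indicator_of_notMem]
      exact fun h => hμ h.symm
    · intro h
      exact absurd (Finset.mem_univ _) h
  simp_rw [h1]
  rw [integral_finsetSum]
  · refine Finset.sum_congr rfl fun μ _ => ?_
    rw [integral_indicator (R.measurableSet_str μ), setIntegral_const, smul_eq_mul]
  · intro μ _
    exact (integrable_const _).indicator (R.measurableSet_str μ)

/-- Bounded functions that are measurable in the coordinates. -/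
def Adm (Φ : Str (LK q) V → Cube V → ℝ) : Prop :=
  (∀ κ, Measurable (Φ κ)) ∧ ∃ C, ∀ κ θ, |Φ κ θ| ≤ C

lemma Adm.mul {Φ Ψ : Str (LK q) V → Cube V → ℝ} (hΦ : Adm Φ) (hΨ : Adm Ψ) :
    Adm fun κ θ => Φ κ θ * Ψ κ θ := by
  obtain ⟨h1, C, hC⟩ := hΦ
  obtain ⟨h2, D, hD⟩ := hΨ
  refine ⟨fun κ => (h1 κ).mul (h2 κ), C * D, fun κ θ => ?_⟩
  rw [abs_mul]
  exact mul_le_mul (hC κ θ) (hD κ θ) (abs_nonneg _) ((abs_nonneg _).trans (hC κ θ))

lemma Adm.add {Φ Ψ : Str (LK q) V → Cube V → ℝ} (hΦ : Adm Φ) (hΨ : Adm Ψ) :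
    Adm fun κ θ => Φ κ θ + Ψ κ θ := by
  obtain ⟨h1, C, hC⟩ := hΦ
  obtain ⟨h2, D, hD⟩ := hΨ
  exact ⟨fun κ => (h1 κ).add (h2 κ), C + D, fun κ θ =>
    (abs_add_le _ _).trans (add_le_add (hC κ θ) (hD κ θ))⟩

lemma Adm.const_mul {Φ : Str (LK q) V → Cube V → ℝ} (hΦ : Adm Φ) (c : ℝ) :
    Adm fun κ θ => c * Φ κ θ := by
  obtain ⟨h1, C, hC⟩ := hΦ
  refine ⟨fun κ => (h1 κ).const_mul c, |c| * C, fun κ θ => ?_⟩
  rw [abs_mul]
  exact mul_le_mul_of_nonneg_left (hC κ θ) (abs_nonneg _)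

lemma Adm.sum {ι : Type} (s : Finset ι) {Φ : ι → Str (LK q) V → Cube V → ℝ}
    (hΦ : ∀ i, Adm (Φ i)) : Adm fun κ θ => ∑ i ∈ s, Φ i κ θ := by
  classical
  induction s using Finset.induction_on with
  | empty => exact ⟨fun κ => by simp, 0, fun κ θ => by simp⟩
  | insert i s hi ih =>
    simp only [Finset.sum_insert hi]
    exact (hΦ i).add ih

lemma Adm.of_K [Finite V] (F : Str (LK q) V → ℝ) : Adm fun κ (_ : Cube V) => F κ := by
  obtain ⟨C, hC⟩ := (Set.finite_range fun κ => |F κ|).bddAbove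
  exact ⟨fun κ => measurable_const, C, fun κ _ => hC ⟨κ, rfl⟩⟩

lemma Adm.of_theta {h : Cube V → ℝ} (hm : Measurable h) {C : ℝ} (hC : ∀ θ, |h θ| ≤ C) :
    Adm fun (_ : Str (LK q) V) θ => h θ := ⟨fun _ => hm, C, fun _ θ => hC θ⟩

/-- Pull back along an injection. -/
def pull (Φ : Str (LK q) V → Cube V → ℝ) (g : V ↪ W) : Str (LK q) W → Cube W → ℝ :=
  fun κ θ => Φ (κ.comap g) (θ.comap g)

lemma Adm.pull {Φ : Str (LK q) V → Cube V → ℝ} (hΦ : Adm Φ) (g : V ↪ W) : Adm (pull Φ g) := by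
  obtain ⟨h1, C, hC⟩ := hΦ
  exact ⟨fun κ => (h1 _).comp (Cube.measurable_comap g), C, fun κ θ => hC _ _⟩

section E

variable {R : Rep L'} {Ξ : ∀ n, Str (LK q) (Fin n) → Str L' (Fin n) → ℝ}

/-- The integrand of the joint expectation. -/
noncomputable def integrand (R : Rep L') (Ξ : ∀ n, Str (LK q) (Fin n) → Str L' (Fin n) → ℝ)
    (n : ℕ) (Φ : Str (LK q) (Fin n) → Cube (Fin n) → ℝ) (θ : Cube (Fin n)) : ℝ :=
  ∑ κ, Ξ n κ (R.str θ) / (cubeMeasure n).real {θ' | R.str θ' = R.str θ} * Φ κ θ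

/-- The joint expectation: first choose the coordinates `θ`, then `κ` given `R.str θ`. -/
noncomputable def EE (R : Rep L') (Ξ : ∀ n, Str (LK q) (Fin n) → Str L' (Fin n) → ℝ)
    (n : ℕ) (Φ : Str (LK q) (Fin n) → Cube (Fin n) → ℝ) : ℝ :=
  ∫ θ, integrand R Ξ n Φ θ ∂(cubeMeasure n)

lemma integrable_integrand (n : ℕ) {Φ : Str (LK q) (Fin n) → Cube (Fin n) → ℝ} (hΦ : Adm Φ) :
    Integrable (integrand R Ξ n Φ) (cubeMeasure n) := by
  obtain ⟨h1, C, hC⟩ := hΦ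
  unfold integrand
  refine integrable_finsetSum _ fun κ _ => ?_
  obtain ⟨D, hD⟩ := (Set.finite_range fun μ : Str L' (Fin n) =>
    |Ξ n κ μ / (cubeMeasure n).real {θ' | R.str θ' = μ}|).bddAbove
  refine Integrable.of_bound (C := D * C) ?_ ?_
  · exact ((R.measurable_str fun μ => Ξ n κ μ / (cubeMeasure n).real {θ' | R.str θ' = μ}).mul
      (h1 κ)).aestronglyMeasurable
  · refine Eventually.of_forall fun θ => ?_
    rw [Real.norm_eq_abs, abs_mul]
    exact mul_le_mul (hD ⟨R.str θ, rfl⟩) (hC κ θ) (abs_nonneg _)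
      ((abs_nonneg _).trans (hD ⟨R.str θ, rfl⟩))

lemma EE_add (n : ℕ) {Φ Ψ : Str (LK q) (Fin n) → Cube (Fin n) → ℝ} (hΦ : Adm Φ) (hΨ : Adm Ψ) :
    EE R Ξ n (fun κ θ => Φ κ θ + Ψ κ θ) = EE R Ξ n Φ + EE R Ξ n Ψ := by
  unfold EE
  rw [← integral_add (integrable_integrand n hΦ) (integrable_integrand n hΨ)]
  congr 1
  funext θ
  unfold integrand
  rw [← Finset.sum_add_distrib]
  exact Finset.sum_congr rfl fun κ _ => by ring

lemma EE_const_mul (n : ℕ) (c : ℝ) (Φ : Str (LK q) (Fin n) → Cube (Fin n) → ℝ) :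
    EE R Ξ n (fun κ θ => c * Φ κ θ) = c * EE R Ξ n Φ := by
  unfold EE
  rw [← integral_const_mul]
  congr 1
  funext θ
  unfold integrand
  rw [Finset.mul_sum]
  exact Finset.sum_congr rfl fun κ _ => by ring

lemma EE_sum (n : ℕ) {ι : Type} (s : Finset ι)
    {Φ : ι → Str (LK q) (Fin n) → Cube (Fin n) → ℝ} (hΦ : ∀ i, Adm (Φ i)) :
    EE R Ξ n (fun κ θ => ∑ i ∈ s, Φ i κ θ) = ∑ i ∈ s, EE R Ξ n (Φ i) := by
  classical
  induction s using Finset.induction_on with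
  | empty => simp [EE, integrand]
  | insert i s hi ih =>
    simp only [Finset.sum_insert hi]
    rw [EE_add n (hΦ i) (Adm.sum s hΦ), ih]

variable (hΞ : CoupData q R Ξ)

include hΞ

lemma EE_nonneg (n : ℕ) {Φ : Str (LK q) (Fin n) → Cube (Fin n) → ℝ} (hΦ : ∀ κ θ, 0 ≤ Φ κ θ) :
    0 ≤ EE R Ξ n Φ :=
  integral_nonneg fun θ => Finset.sum_nonneg fun κ _ =>
    mul_nonneg (div_nonneg (hΞ.nonneg _ _ _) measureReal_nonneg) (hΦ κ θ)

lemma EE_mono (n : ℕ) {Φ Ψ : Str (LK q) (Fin n) → Cube (Fin n) → ℝ} (hΦ : Adm Φ) (hΨ : Adm Ψ)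
    (h : ∀ κ θ, Φ κ θ ≤ Ψ κ θ) : EE R Ξ n Φ ≤ EE R Ξ n Ψ := by
  have h1 : 0 ≤ EE R Ξ n (fun κ θ => Ψ κ θ + (-1) * Φ κ θ) :=
    EE_nonneg hΞ n fun κ θ => by linarith [h κ θ]
  rw [EE_add n hΨ (hΦ.const_mul (-1)), EE_const_mul] at h1
  linarith

lemma Xi_zero (n : ℕ) (κ : Str (LK q) (Fin n)) (μ : Str L' (Fin n))
    (h : (cubeMeasure n).real {θ | R.str θ = μ} = 0) : Ξ n κ μ = 0 := by
  rw [← hΞ.right n μ] at h
  exact (Finset.sum_eq_zero_iff_of_nonneg fun κ _ => hΞ.nonneg n κ μ).mp h κ (Finset.mem_univ _)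

/-- Expectation of a function of the two structures. -/
lemma EE_str (n : ℕ) (F : Str (LK q) (Fin n) → Str L' (Fin n) → ℝ) :
    EE R Ξ n (fun κ θ => F κ (R.str θ)) = ∑ κ, ∑ μ, Ξ n κ μ * F κ μ := by
  unfold EE integrand
  rw [R.integral_str n fun μ =>
    ∑ κ, Ξ n κ μ / (cubeMeasure n).real {θ' | R.str θ' = μ} * F κ μ, Finset.sum_comm]
  refine Finset.sum_congr rfl fun μ _ => ?_
  rw [Finset.mul_sum]
  refine Finset.sum_congr rfl fun κ _ => ?_
  by_cases h : (cubeMeasure n).real {θ | R.str θ = μ} = 0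
  · rw [h, Xi_zero hΞ n κ μ h]
    ring
  · field_simp

/-- Expectation of a function of `κ`. -/
lemma EE_K (n : ℕ) (F : Str (LK q) (Fin n) → ℝ) :
    EE R Ξ n (fun κ _ => F κ) = avg fun x : Hid q n => F (K x) := by
  rw [EE_str hΞ n fun κ _ => F κ, ← sum_labK]
  refine Finset.sum_congr rfl fun κ _ => ?_
  rw [← Finset.sum_mul, hΞ.left]

/-- Expectation of a function of the coordinates. -/
lemma EE_theta (n : ℕ) (h : Cube (Fin n) → ℝ) :
    EE R Ξ n (fun _ θ => h θ) = ∫ θ, h θ ∂(cubeMeasure n) := by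
  unfold EE
  refine integral_congr_ae ?_
  have h1 : ∀ᵐ θ ∂(cubeMeasure n), (cubeMeasure n).real {θ' | R.str θ' = R.str θ} ≠ 0 := by
    rw [ae_iff]
    have hsub : {θ : Cube (Fin n) | ¬ (cubeMeasure n).real {θ' | R.str θ' = R.str θ} ≠ 0} ⊆
        ⋃ μ : {μ : Str L' (Fin n) // (cubeMeasure n).real {θ' | R.str θ' = μ} = 0},
          {θ | R.str θ = μ.1} := by
      intro θ hθ
      have hθ' : (cubeMeasure n).real {θ' | R.str θ' = R.str θ} = 0 := by
        simpa using hθ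
      exact Set.mem_iUnion.mpr ⟨⟨R.str θ, hθ'⟩, rfl⟩
    refine measure_mono_null hsub (measure_iUnion_null fun μ => ?_)
    exact (measureReal_eq_zero_iff).mp μ.2
  filter_upwards [h1] with θ hθ
  unfold integrand
  rw [← Finset.sum_mul, ← Finset.sum_div, hΞ.right, div_self hθ, one_mul]

lemma EE_one (n : ℕ) : EE R Ξ n (fun _ _ => 1) = 1 := by
  rw [EE_theta hΞ]
  simp

lemma EE_abs_le (n : ℕ) {Φ : Str (LK q) (Fin n) → Cube (Fin n) → ℝ} (hΦ : Adm Φ)
    {h : Cube (Fin n) → ℝ} (hh : Adm (q := q) fun _ θ => h θ) (hle : ∀ κ θ, |Φ κ θ| ≤ h θ) :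
    |EE R Ξ n Φ| ≤ ∫ θ, h θ ∂(cubeMeasure n) := by
  rw [← EE_theta hΞ, abs_le]
  constructor
  · have := EE_mono hΞ n (hh.const_mul (-1)) hΦ fun κ θ => by
      have := neg_le_of_abs_le (hle κ θ)
      linarith
    rw [EE_const_mul] at this
    linarith
  · exact EE_mono hΞ n hΦ hh fun κ θ => le_of_abs_le (hle κ θ)

/-- Cauchy–Schwarz. -/
lemma EE_sq (n : ℕ) {H Z : Str (LK q) (Fin n) → Cube (Fin n) → ℝ} (hH : Adm H) (hZ : Adm Z)
    (hH1 : ∀ κ θ, |H κ θ| ≤ 1) :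
    (EE R Ξ n fun κ θ => H κ θ * Z κ θ) ^ 2 ≤ EE R Ξ n fun κ θ => Z κ θ * Z κ θ := by
  set t := EE R Ξ n fun κ θ => H κ θ * Z κ θ with ht
  have h0 : 0 ≤ EE R Ξ n fun κ θ => (Z κ θ + (-t) * H κ θ) * (Z κ θ + (-t) * H κ θ) :=
    EE_nonneg hΞ n fun κ θ => mul_self_nonneg _
  have h1 : (fun κ θ => (Z κ θ + (-t) * H κ θ) * (Z κ θ + (-t) * H κ θ)) =
      fun κ θ => (Z κ θ * Z κ θ + (-2 * t) * (H κ θ * Z κ θ)) + t ^ 2 * (H κ θ * H κ θ) := by
    funext κ θ
    ring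
  rw [h1, EE_add n ((hZ.mul hZ).add ((hH.mul hZ).const_mul _)) ((hH.mul hH).const_mul _),
    EE_add n (hZ.mul hZ) ((hH.mul hZ).const_mul _), EE_const_mul, EE_const_mul, ← ht] at h0
  have h2 : EE R Ξ n (fun κ θ => H κ θ * H κ θ) ≤ 1 := by
    rw [← EE_one hΞ n]
    refine EE_mono hΞ n (hH.mul hH) ⟨fun _ => measurable_const, 1, fun _ _ => by simp⟩
      fun κ θ => ?_
    have := hH1 κ θ
    have h3 : |H κ θ * H κ θ| ≤ 1 := by
      rw [abs_mul]
      exact mul_le_one₀ this (abs_nonneg _) this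
    exact (le_abs_self _).trans h3
  nlinarith [mul_le_mul_of_nonneg_left h2 (sq_nonneg t)]

lemma Xi_comap {n : ℕ} (σ : Equiv.Perm (Fin n)) (κ : Str (LK q) (Fin n)) (μ : Str L' (Fin n)) :
    Ξ n (κ.comap σ.toEmbedding) (μ.comap σ.toEmbedding) = Ξ n κ μ := by
  classical
  have hinj : ∀ {L : Lang} (κ κ' : Str L (Fin n)),
      κ.comap σ.toEmbedding = κ'.comap σ.toEmbedding ↔ κ = κ' := by
    intro L κ κ'
    constructor
    · intro h
      have h1 : (κ.comap σ.toEmbedding).comap σ.symm.toEmbedding =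
          (κ'.comap σ.toEmbedding).comap σ.symm.toEmbedding := by rw [h]
      rw [Str.comap_comap, Str.comap_comap] at h1
      have e : σ.symm.toEmbedding.trans σ.toEmbedding = Function.Embedding.refl _ := by
        ext i; simp
      rw [e] at h1
      exact h1
    · rintro rfl
      rfl
  have h := hΞ.cons σ.toEmbedding fun κ' μ' =>
    if κ' = κ.comap σ.toEmbedding ∧ μ' = μ.comap σ.toEmbedding then (1 : ℝ) else 0
  rw [Finset.sum_eq_single κ, Finset.sum_eq_single μ, Finset.sum_eq_single (κ.comap σ.toEmbedding),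
    Finset.sum_eq_single (μ.comap σ.toEmbedding)] at h
  · simpa using h.symm
  · intro μ' _ hμ'
    rw [if_neg (fun h => hμ' h.2), mul_zero]
  · intro h; exact absurd (Finset.mem_univ _) h
  · intro κ' _ hκ'
    refine Finset.sum_eq_zero fun μ' _ => ?_
    rw [if_neg (fun h => hκ' h.1), mul_zero]
  · intro h; exact absurd (Finset.mem_univ _) h
  · intro μ' _ hμ'
    rw [if_neg (fun h => hμ' ((hinj _ _).mp h.2)), mul_zero]
  · intro h; exact absurd (Finset.mem_univ _) h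
  · intro κ' _ hκ'
    refine Finset.sum_eq_zero fun μ' _ => ?_
    rw [if_neg (fun h => hκ' ((hinj _ _).mp h.1)), mul_zero]
  · intro h; exact absurd (Finset.mem_univ _) h

/-- Invariance of the joint expectation. -/
lemma EE_perm {n : ℕ} (σ : Equiv.Perm (Fin n)) {Φ : Str (LK q) (Fin n) → Cube (Fin n) → ℝ}
    (hΦ : Adm Φ) : EE R Ξ n (pull Φ σ.toEmbedding) = EE R Ξ n Φ := by
  classical
  have h1 : ∀ θ : Cube (Fin n), integrand R Ξ n (pull Φ σ.toEmbedding) θ =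
      integrand R Ξ n Φ (θ.comap σ.toEmbedding) := by
    intro θ
    unfold integrand pull
    have e1 : σ.symm.toEmbedding.trans σ.toEmbedding = Function.Embedding.refl _ := by
      ext i; simp
    have e2 : σ.toEmbedding.trans σ.symm.toEmbedding = Function.Embedding.refl _ := by
      ext i; simp
    let e : Str (LK q) (Fin n) ≃ Str (LK q) (Fin n) :=
      { toFun := fun κ => κ.comap σ.toEmbedding
        invFun := fun κ => κ.comap σ.symm.toEmbedding
        left_inv := fun κ => by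
          show (κ.comap σ.toEmbedding).comap σ.symm.toEmbedding = κ
          rw [Str.comap_comap, e1]
          rfl
        right_inv := fun κ => by
          show (κ.comap σ.symm.toEmbedding).comap σ.toEmbedding = κ
          rw [Str.comap_comap, e2]
          rfl }
    have hψ : (cubeMeasure n).real {θ' | R.str θ' = R.str (θ.comap σ.toEmbedding)} =
        (cubeMeasure n).real {θ' | R.str θ' = R.str θ} := by
      rw [← R.str_comap, ← hΞ.right, ← hΞ.right, ← e.sum_comp]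
      exact Finset.sum_congr rfl fun κ _ => Xi_comap hΞ σ κ _
    rw [hψ]
    refine Fintype.sum_equiv e _ _ fun κ => ?_
    rw [← R.str_comap]
    show _ = Ξ n (κ.comap σ.toEmbedding) ((R.str θ).comap σ.toEmbedding) / _ * _
    rw [Xi_comap hΞ σ κ]
    rfl
  unfold EE
  simp_rw [h1]
  have h2 := integral_map (μ := cubeMeasure n) (φ := Cube.comap σ.toEmbedding)
    (f := integrand R Ξ n Φ) (Cube.measurable_comap _).aemeasurable (by
      rw [(Cube.mp_comap (n := n) σ.toEmbedding).map_eq]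
      exact (integrable_integrand n hΦ).aestronglyMeasurable)
  rw [(Cube.mp_comap (n := n) σ.toEmbedding).map_eq] at h2
  exact h2.symm

lemma EE_pull_eq {n : ℕ} {Φ : Str (LK q) V → Cube V → ℝ} (hΦ : Adm Φ) (g g' : V ↪ Fin n) :
    EE R Ξ n (pull Φ g) = EE R Ξ n (pull Φ g') := by
  obtain ⟨σ, hσ⟩ := exists_perm g g'
  have h1 : pull Φ g' = pull (pull Φ g) σ.toEmbedding := by
    funext κ θ
    unfold pull
    rw [Str.comap_comap, Cube.comap_comap, hσ]
  rw [h1]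
  exact (EE_perm hΞ σ (hΦ.pull g)).symm

end E

end Pool.Agent.Lib.MP_e98621_co
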