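import Mathlib
import Pool.Agent.Lib.MP_e98621_co.Expect

/-!
# The Cauchy–Schwarz induction
-/

namespace Pool.Agent.Lib.MP_e98621_co

open MeasureTheory Filter Topology

variable {q : ℕ} {L' : Lang} {V W : Type}

/-- The expectation of a function on the vertex set `V` inside a system on `n` vertices. -/
noncomputable def eE (R : Rep L') (Ξ : ∀ n, Str (LK q) (Fin n) → Str L' (Fin n) → ℝ)
    (Φ : Str (LK q) V → Cube V → ℝ) (n : ℕ) : ℝ := by
  classical
  exact if h : Nonempty (V ↪ Fin n) then EE R Ξ n (pull Φ h.some) else 0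

/-- The inclusion of `V` in `V ∪ {new vertex}`. -/
def i1 (V : Type) : V ↪ Option V := Function.Embedding.some

/-- The inclusion of `V` in `V ∪ {new vertex}` that replaces `w` by the new vertex. -/
def i2 [DecidableEq V] (w : V) : V ↪ Option V :=
  ⟨fun v => if v = w then none else some v, fun u v h => by
    simp only at h
    split_ifs at h with h1 h2 h2
    · rw [h1, h2]
    · exact Option.some.inj h⟩

lemma i2_apply [DecidableEq V] (w v : V) : i2 w v = if v = w then none else some v := rfl

/-- `H` does not depend on the vertex `w`. -/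
def IndepOf (w : V) (H : Cube V → ℝ) : Prop :=
  ∀ θ θ' : Cube V, (∀ A : NSub V, w ∉ A.1 → θ A = θ' A) → H θ = H θ'

section

variable {R : Rep L'} {Ξ : ∀ n, Str (LK q) (Fin n) → Str L' (Fin n) → ℝ}
variable (hΞ : CoupData q R Ξ)

include hΞ

lemma eE_eq {n : ℕ} {Φ : Str (LK q) V → Cube V → ℝ} (hΦ : Adm Φ) (g : V ↪ Fin n) :
    eE R Ξ Φ n = EE R Ξ n (pull Φ g) := by
  unfold eE
  rw [dif_pos ⟨g⟩]
  exact EE_pull_eq hΞ hΦ _ _

/-- The Cauchy–Schwarz step. -/
lemma step [Fintype V] [DecidableEq V] {n : ℕ} (hn : Fintype.card V < n) (w : V)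
    {X : Str (LK q) V → Cube V → ℝ} (hX : Adm X) (hX1 : ∀ κ θ, |X κ θ| ≤ 1)
    {H : Cube V → ℝ} (hHm : Measurable H) (hH1 : ∀ θ, |H θ| ≤ 1) (hHi : IndepOf w H) :
    (eE R Ξ (fun κ θ => H θ * X κ θ) n) ^ 2 ≤ 1 / ((n : ℝ) - Fintype.card V) +
      |eE R Ξ (fun (κ : Str (LK q) (Option V)) (θ : Cube (Option V)) =>
        X (κ.comap (i1 V)) (θ.comap (i1 V)) * X (κ.comap (i2 w)) (θ.comap (i2 w))) n| := by
  classical
  obtain ⟨g0⟩ : Nonempty (V ↪ Fin n) :=
    Function.Embedding.nonempty_of_card_le (by simpa using hn.le)
  have hHA : Adm (q := q) fun _ θ => H θ := Adm.of_theta hHm hH1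
  have hHX : Adm fun κ θ => H θ * X κ θ := hHA.mul hX
  set e := eE R Ξ (fun κ θ => H θ * X κ θ) n with he
  let X2 : Str (LK q) (Option V) → Cube (Option V) → ℝ := fun κ θ =>
    X (κ.comap (i1 V)) (θ.comap (i1 V)) * X (κ.comap (i2 w)) (θ.comap (i2 w))
  have hX2 : Adm X2 := (hX.pull (i1 V)).mul (hX.pull (i2 w))
  set c := eE R Ξ X2 n with hc
  -- the free vertices
  let ι : Type := {j : Fin n // ∀ v, g0 v ≠ j}
  have hι : Fintype.card ι + Fintype.card V = n := by
    have h1 : Fintype.card ι = (Finset.univ.map g0)ᶜ.card := by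
      rw [Fintype.card_subtype]
      congr 1
      ext j
      simp
    rw [h1, Finset.card_compl, Finset.card_map, Finset.card_univ, Fintype.card_fin]
    omega
  let gj : ι → (V ↪ Fin n) := fun j =>
    ⟨fun v => if v = w then j.1 else g0 v, fun u v h => by
      simp only at h
      split_ifs at h with h1 h2 h2
      · rw [h1, h2]
      · exact absurd h.symm (j.2 v)
      · exact absurd h (j.2 u)
      · exact g0.injective h⟩
  have gj_ne : ∀ j v, v ≠ w → gj j v = g0 v := fun j v hv => by simp [gj, hv]
  have gj_w : ∀ j, gj j w = j.1 := fun j => by simp [gj]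
  -- the functions of the free vertices
  let Y : ι → Str (LK q) (Fin n) → Cube (Fin n) → ℝ := fun j => pull X (gj j)
  have hY : ∀ j, Adm (Y j) := fun j => hX.pull _
  let H0 : Str (LK q) (Fin n) → Cube (Fin n) → ℝ := fun _ θ => H (θ.comap g0)
  have hH0 : Adm H0 := hHA.pull g0
  have hHj : ∀ (j : ι) (θ : Cube (Fin n)), H (θ.comap (gj j)) = H (θ.comap g0) := by
    intro j θ
    apply hHi
    intro A hA
    show θ _ = θ _
    congr 1
    apply Subtype.ext
    show A.1.map (gj j) = A.1.map g0
    ext a
    simp only [Finset.mem_map]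
    constructor
    · rintro ⟨v, hv, rfl⟩
      exact ⟨v, hv, (gj_ne j v (fun h => hA (h ▸ hv))).symm⟩
    · rintro ⟨v, hv, rfl⟩
      exact ⟨v, hv, gj_ne j v (fun h => hA (h ▸ hv))⟩
  have hE1 : ∀ j, EE R Ξ n (fun κ θ => H0 κ θ * Y j κ θ) = e := by
    intro j
    rw [he, eE_eq hΞ hHX (gj j)]
    congr 1
    funext κ θ
    simp only [H0, Y, pull, hHj]
  have hE2 : EE R Ξ n (fun κ θ => H0 κ θ * ∑ j, Y j κ θ) = Fintype.card ι * e := by
    simp_rw [Finset.mul_sum]
    rw [EE_sum n Finset.univ (fun j => hH0.mul (hY j))]
    simp_rw [hE1]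
    rw [Finset.sum_const, Finset.card_univ, nsmul_eq_mul]
  have hE3 : ∀ j l, EE R Ξ n (fun κ θ => Y j κ θ * Y l κ θ) ≤ if j = l then 1 else |c| := by
    intro j l
    split_ifs with hjl
    · rw [← EE_one hΞ n]
      refine EE_mono hΞ n ((hY j).mul (hY l)) ⟨fun _ => measurable_const, 1, fun _ _ => by simp⟩
        fun κ θ => ?_
      refine (le_abs_self _).trans ?_
      rw [abs_mul]
      exact mul_le_one₀ (hX1 _ _) (abs_nonneg _) (hX1 _ _)
    · refine le_trans (le_of_eq ?_) (le_abs_self c)
      let g : Option V ↪ Fin n :=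
        ⟨fun o => match o with
          | none => l.1
          | some v => gj j v, by
            rintro (_ | u) (_ | v) h
            · rfl
            · exfalso
              simp only at h
              by_cases hv : v = w
              · subst hv
                rw [gj_w] at h
                exact hjl (Subtype.ext h.symm)
              · rw [gj_ne j v hv] at h
                exact l.2 v h.symm
            · exfalso
              simp only at h
              by_cases hv : u = w
              · subst hv
                rw [gj_w] at h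
                exact hjl (Subtype.ext h)
              · rw [gj_ne j u hv] at h
                exact l.2 u h
            · simp only at h
              rw [(gj j).injective h]⟩
      rw [hc, eE_eq hΞ hX2 g]
      congr 1
      have h1 : (i1 V).trans g = gj j := by
        refine DFunLike.ext _ _ fun v => ?_
        rfl
      have h2 : (i2 w).trans g = gj l := by
        refine DFunLike.ext _ _ fun v => ?_
        by_cases hv : v = w
        · rw [hv, gj_w, Function.Embedding.trans_apply, i2_apply, if_pos rfl]
          rfl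
        · rw [gj_ne l v hv, Function.Embedding.trans_apply, i2_apply, if_neg hv]
          exact gj_ne j v hv
      funext κ θ
      simp only [pull, X2, Y, Str.comap_comap, Cube.comap_comap, h1, h2]
  have hE4 : EE R Ξ n (fun κ θ => (∑ j, Y j κ θ) * ∑ j, Y j κ θ) ≤
      Fintype.card ι + (Fintype.card ι : ℝ) ^ 2 * |c| := by
    simp_rw [Finset.sum_mul_sum]
    rw [EE_sum n Finset.univ (fun j => Adm.sum Finset.univ fun l => (hY j).mul (hY l))]
    simp_rw [EE_sum n Finset.univ (fun l => (hY _).mul (hY l))]
    calc ∑ j, ∑ l, EE R Ξ n (fun κ θ => Y j κ θ * Y l κ θ)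
        ≤ ∑ j : ι, ∑ l : ι, ((if j = l then 1 else 0) + |c|) := by
          refine Finset.sum_le_sum fun j _ => Finset.sum_le_sum fun l _ => (hE3 j l).trans ?_
          split_ifs
          · linarith [abs_nonneg c]
          · linarith
      _ = Fintype.card ι + (Fintype.card ι : ℝ) ^ 2 * |c| := by
          have h1 : ∀ j : ι, ∑ l : ι, ((if j = l then (1 : ℝ) else 0) + |c|) =
              1 + Fintype.card ι * |c| := by
            intro j
            rw [Finset.sum_add_distrib, Finset.sum_const, Finset.card_univ, nsmul_eq_mul,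
              Finset.sum_eq_single j, if_pos rfl]
            · intro l _ hl
              rw [if_neg (Ne.symm hl)]
            · intro h
              exact absurd (Finset.mem_univ _) h
          rw [Finset.sum_congr rfl fun j _ => h1 j, Finset.sum_const, Finset.card_univ,
            nsmul_eq_mul]
          ring
  have hE5 := EE_sq hΞ n hH0 (Adm.sum Finset.univ hY) (fun κ θ => hH1 _)
  rw [hE2] at hE5
  have hE6 := hE5.trans hE4
  have hN : (0 : ℝ) < Fintype.card ι := by
    have : 0 < Fintype.card ι := by omega
    exact_mod_cast this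
  have hNn : ((n : ℝ) - Fintype.card V) = Fintype.card ι := by
    have h := congrArg (fun m : ℕ => (m : ℝ)) hι
    push_cast at h
    linarith
  rw [hNn]
  have h7 : (Fintype.card ι : ℝ) ^ 2 * e ^ 2 ≤
      (Fintype.card ι : ℝ) ^ 2 * (1 / Fintype.card ι + |c|) := by
    have : (Fintype.card ι : ℝ) ^ 2 * (1 / Fintype.card ι + |c|) =
        Fintype.card ι + (Fintype.card ι : ℝ) ^ 2 * |c| := by
      field_simp
    rw [this]
    nlinarith
  exact le_of_mul_le_mul_left h7 (by positivity)

lemma step_tendsto [Fintype V] [DecidableEq V] (w : V)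
    {X : Str (LK q) V → Cube V → ℝ} (hX : Adm X) (hX1 : ∀ κ θ, |X κ θ| ≤ 1)
    {H : Cube V → ℝ} (hHm : Measurable H) (hH1 : ∀ θ, |H θ| ≤ 1) (hHi : IndepOf w H)
    (hlim : Tendsto (eE R Ξ (fun (κ : Str (LK q) (Option V)) (θ : Cube (Option V)) =>
        X (κ.comap (i1 V)) (θ.comap (i1 V)) * X (κ.comap (i2 w)) (θ.comap (i2 w))))
        atTop (𝓝 0)) :
    Tendsto (eE R Ξ (fun κ θ => H θ * X κ θ)) atTop (𝓝 0) := by
  have h1 : Tendsto (fun n : ℕ => 1 / ((n : ℝ) - Fintype.card V)) atTop (𝓝 0) := by
    simp only [one_div]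
    exact tendsto_inv_atTop_zero.comp
      (tendsto_atTop_add_const_right _ _ tendsto_natCast_atTop_atTop)
  have h2 := (h1.add hlim.abs).sqrt
  simp only [abs_zero, add_zero, Real.sqrt_zero] at h2
  refine squeeze_zero_norm' ?_ h2
  filter_upwards [eventually_gt_atTop (Fintype.card V)] with n hn
  rw [Real.norm_eq_abs]
  exact Real.abs_le_sqrt (step hΞ hn w hX hX1 hHm hH1 hHi)

lemma base_case [Fintype V] (β : Tup q V) (v : Z4) (F : Str (LK q) V → ℝ)
    (hodd : ∀ κ, F (flip (site β v) κ) = - F κ) (n : ℕ) :
    eE R Ξ (fun κ _ => F κ) n = 0 := by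
  classical
  by_cases h : Nonempty (V ↪ Fin n)
  · obtain ⟨g⟩ := h
    rw [eE_eq hΞ (Adm.of_K F) g]
    have h1 : pull (fun κ (_ : Cube V) => F κ) g = fun κ _ => F (κ.comap g) := rfl
    rw [h1, EE_K hΞ n fun κ => F (κ.comap g)]
    have h2 : avg (fun x : Hid q n => F ((K x).comap g)) =
        avg (fun x : Hid q n => F ((K (x + site (β.trans g) v)).comap g)) := by
      unfold avg
      congr 1
      exact (Equiv.sum_comp (Equiv.addRight (site (β.trans g) v))
        (fun x : Hid q n => F ((K x).comap g))).symm
    have h3 : (fun x : Hid q n => F ((K (x + site (β.trans g) v)).comap g)) =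
        fun x : Hid q n => F ((K x).comap g) * (-1) := by
      funext x
      rw [K_add _ (site_swp _ _), comap_flip_site, hodd]
      ring
    rw [h3, avg_mul_const] at h2
    linarith
  · unfold eE
    rw [dif_neg h]

/-- The Cauchy–Schwarz induction. -/
theorem main_ind : ∀ (r : ℕ) (V : Type) [Fintype V] [DecidableEq V] (β : Tup q V) (v : Z4)
    (F : Str (LK q) V → ℝ), (∀ κ, |F κ| ≤ 1) → (∀ κ, F (flip (site β v) κ) = - F κ) →
    ∀ l : List V, l.length = r → (∀ w ∈ l, ∃ i, β i = w) →
    ∀ H : V → Cube V → ℝ, (∀ w, Measurable (H w)) → (∀ w θ, |H w θ| ≤ 1) →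
    (∀ w, IndepOf w (H w)) →
    Tendsto (eE R Ξ (fun κ θ => F κ * (l.map fun w => H w θ).prod)) atTop (𝓝 0) := by
  classical
  intro r
  induction r with
  | zero =>
    intro V _ _ β v F hF hodd l hl _ H _ _ _
    have : l = [] := List.length_eq_zero_iff.mp hl
    subst this
    simp only [List.map_nil, List.prod_nil, mul_one]
    refine tendsto_const_nhds.congr fun n => ?_
    exact (base_case hΞ β v F hodd n).symm
  | succ r ih =>
    intro V _ _ β v F hF hodd l hl hlβ H hHm hH1 hHi
    obtain ⟨w, l0, rfl⟩ := List.exists_cons_of_length_eq_add_one hl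
    have hl0 : l0.length = r := by simpa using hl
    let X : Str (LK q) V → Cube V → ℝ := fun κ θ => F κ * (l0.map fun w => H w θ).prod
    have hprod1 : ∀ (l : List V) (θ : Cube V), |(l.map fun w => H w θ).prod| ≤ 1 := by
      intro l θ
      induction l with
      | nil => simp
      | cons a l ih =>
        simp only [List.map_cons, List.prod_cons]
        rw [abs_mul]
        exact mul_le_one₀ (hH1 a θ) (abs_nonneg _) ih
    have hprodm : ∀ l : List V, Measurable fun θ : Cube V => (l.map fun w => H w θ).prod := by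
      intro l
      induction l with
      | nil => simp
      | cons a l ih =>
        simp only [List.map_cons, List.prod_cons]
        exact (hHm a).mul ih
    have hX : Adm X := (Adm.of_K F).mul (Adm.of_theta (hprodm l0) (hprod1 l0))
    have hX1 : ∀ κ θ, |X κ θ| ≤ 1 := by
      intro κ θ
      simp only [X]
      rw [abs_mul]
      exact mul_le_one₀ (hF κ) (abs_nonneg _) (hprod1 l0 θ)
    have hrew : (fun (κ : Str (LK q) V) (θ : Cube V) =>
        F κ * ((w :: l0).map fun w => H w θ).prod) = fun κ θ => H w θ * X κ θ := by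
      funext κ θ
      simp only [X, List.map_cons, List.prod_cons]
      ring
    rw [hrew]
    refine step_tendsto hΞ w hX hX1 (hHm w) (hH1 w) (hHi w) ?_
    -- the new data
    let F' : Str (LK q) (Option V) → ℝ := fun κ => F (κ.comap (i1 V)) * F (κ.comap (i2 w))
    let H' : Option V → Cube (Option V) → ℝ := fun o θ =>
      match o with
      | none => 1
      | some u => H u (θ.comap (i1 V)) * H u (θ.comap (i2 w))
    have hw : ∃ i, β i = w := hlβ w (by simp)
    have hrew2 : (fun (κ : Str (LK q) (Option V)) (θ : Cube (Option V)) =>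
        X (κ.comap (i1 V)) (θ.comap (i1 V)) * X (κ.comap (i2 w)) (θ.comap (i2 w))) =
        fun κ θ => F' κ * ((l0.map some).map fun o => H' o θ).prod := by
      funext κ θ
      simp only [X, F', List.map_map]
      have : ((fun o => H' o θ) ∘ some) = fun u => H u (θ.comap (i1 V)) * H u (θ.comap (i2 w)) :=
        rfl
      rw [this, List.prod_map_mul]
      ring
    rw [hrew2]
    refine ih (Option V) (β.trans (i1 V)) v F' ?_ ?_ (l0.map some) (by simpa using hl0) ?_ H'
      ?_ ?_ ?_
    · intro κ
      simp only [F']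
      rw [abs_mul]
      exact mul_le_one₀ (hF _) (abs_nonneg _) (hF _)
    · intro κ
      simp only [F']
      rw [comap_flip_site, hodd]
      have hmiss : (flip (site (β.trans (i1 V)) v) κ).comap (i2 w) = κ.comap (i2 w) := by
        refine comap_flip_miss (w := some w) v ?_ ?_ κ
        · obtain ⟨i, hi⟩ := hw
          exact ⟨i, by
            show some (β i) = some w
            rw [hi]⟩
        · intro u h
          rw [i2_apply] at h
          split_ifs at h with h1
          exact h1 (Option.some.inj h)
      rw [hmiss]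
      ring
    · intro o ho
      obtain ⟨u, hu, rfl⟩ := List.mem_map.mp ho
      obtain ⟨i, hi⟩ := hlβ u (List.mem_cons_of_mem _ hu)
      exact ⟨i, by
        show some (β i) = some u
        rw [hi]⟩
    · rintro (_ | u)
      · exact measurable_const
      · exact ((hHm u).comp (Cube.measurable_comap _)).mul
          ((hHm u).comp (Cube.measurable_comap _))
    · rintro (_ | u) θ
      · simp [H']
      · simp only [H']
        rw [abs_mul]
        exact mul_le_one₀ (hH1 _ _) (abs_nonneg _) (hH1 _ _)
    · rintro (_ | u) θ θ' h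
      · rfl
      · simp only [H']
        congr 1
        · apply hHi u
          intro A hA
          apply h
          intro hmem
          obtain ⟨a, ha, hau⟩ := Finset.mem_map.mp hmem
          have : a = u := Option.some.inj hau
          exact hA (this ▸ ha)
        · apply hHi u
          intro A hA
          apply h
          intro hmem
          obtain ⟨a, ha, hau⟩ := Finset.mem_map.mp hmem
          rw [i2_apply] at hau
          split_ifs at hau with h1
          have : a = u := Option.some.inj hau
          exact hA (this ▸ ha)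

end

end Pool.Agent.Lib.MP_e98621_co
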