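import Mathlib
import Pool.Agent.Lib.MP_e98621_co.Step

/-!
# The separating object is in `UCouple[q + 1]`
-/

namespace Pool.Agent.Lib.MP_e98621_co

open MeasureTheory Filter Topology Set

variable {q : ℕ} {L' : Lang} {V W : Type}

/-- Forget the coordinates of the sets of size larger than `q + 1`. -/
noncomputable def trunc (q : ℕ) (θ : Cube V) : Cube V := fun A => if A.1.card ≤ q + 1 then θ A else 0

lemma measurable_trunc : Measurable (trunc q : Cube V → Cube V) := by
  apply measurable_pi_lambda
  intro A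
  unfold trunc
  split_ifs
  · exact measurable_pi_apply A
  · exact measurable_const

lemma str_trunc {R : Rep L'}
    (hR : ∀ i, DependsOn (fun x => x ∈ R.N i) {B : NSub (Fin (L'.ar i)) | B.1.card ≤ q + 1})
    (θ : Cube V) : R.str (trunc q θ) = R.str θ := by
  apply Str.ext
  intro i α
  have := hR i (x := (trunc q θ).comap α) (y := θ.comap α) (fun B hB => by
    show trunc q θ ⟨B.1.map α, B.2.map⟩ = θ ⟨B.1.map α, B.2.map⟩
    unfold trunc
    rw [if_pos]
    rw [Finset.card_map]
    exact hB)
  exact iff_of_eq this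

lemma prod_one (f : V → ℝ) (l : List V) (h : ∀ w ∈ l, f w = 1) : (l.map f).prod = 1 := by
  apply List.prod_eq_one
  intro x hx
  obtain ⟨w, hw, rfl⟩ := List.mem_map.mp hx
  exact h w hw

lemma prod_zero (f : V → ℝ) (l : List V) (h : ∃ w ∈ l, f w = 0) : (l.map f).prod = 0 := by
  obtain ⟨w, hw, h0⟩ := h
  exact List.prod_eq_zero (List.mem_map.mpr ⟨w, hw, h0⟩)

section

variable {R : Rep L'} {Ξ : ∀ n, Str (LK q) (Fin n) → Str L' (Fin n) → ℝ}
variable (hΞ : CoupData q R Ξ)

include hΞ

lemma eE_add {n : ℕ} {Φ Ψ : Str (LK q) V → Cube V → ℝ} (hΦ : Adm Φ) (hΨ : Adm Ψ) :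
    eE R Ξ (fun κ θ => Φ κ θ + Ψ κ θ) n = eE R Ξ Φ n + eE R Ξ Ψ n := by
  by_cases h : Nonempty (V ↪ Fin n)
  · obtain ⟨g⟩ := h
    rw [eE_eq hΞ hΦ g, eE_eq hΞ hΨ g, eE_eq hΞ (hΦ.add hΨ) g]
    exact EE_add n (hΦ.pull g) (hΨ.pull g)
  · unfold eE
    rw [dif_neg h, dif_neg h, dif_neg h, add_zero]

/-- The statement for boxes. -/
lemma box_case {k : ℕ} (β : Tup q (Fin k)) (v : Z4) (F : Str (LK q) (Fin k) → ℝ)
    (hF : ∀ κ, |F κ| ≤ 1) (hodd : ∀ κ, F (flip (site β v) κ) = - F κ)
    (s : NSub (Fin k) → Set unitInterval) (hs : ∀ A, MeasurableSet (s A)) :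
    Tendsto (eE R Ξ (fun κ θ => F κ *
      (Set.univ.pi s).indicator (fun _ => (1 : ℝ)) (trunc q θ))) atTop (𝓝 0) := by
  classical
  let c : ℝ := if ∀ A : NSub (Fin k), ¬ A.1.card ≤ q + 1 → (0 : unitInterval) ∈ s A then 1 else 0
  let H : Fin k → Cube (Fin k) → ℝ := fun w θ =>
    if ∀ A : NSub (Fin k), w ∉ A.1 → A.1.card ≤ q + 1 → θ A ∈ s A then 1 else 0
  let l : List (Fin k) := List.ofFn β
  have hrew : (fun (κ : Str (LK q) (Fin k)) (θ : Cube (Fin k)) => F κ *
      (Set.univ.pi s).indicator (fun _ => (1 : ℝ)) (trunc q θ)) =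
      fun κ θ => (c * F κ) * (l.map fun w => H w θ).prod := by
    funext κ θ
    have h2 : (∀ w ∈ l, ∀ A : NSub (Fin k), w ∉ A.1 → A.1.card ≤ q + 1 → θ A ∈ s A) ↔
        ∀ A : NSub (Fin k), A.1.card ≤ q + 1 → θ A ∈ s A := by
      constructor
      · intro h A hA
        have h3 : A.1.card < (Finset.univ.map β).card := by
          rw [Finset.card_map, Finset.card_univ, Fintype.card_fin]
          omega
        obtain ⟨w, hw, hwA⟩ := Finset.exists_mem_notMem_of_card_lt_card h3
        obtain ⟨i, _, rfl⟩ := Finset.mem_map.mp hw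
        exact h (β i) ((List.mem_ofFn' _ _).mpr ⟨i, rfl⟩) A hwA hA
      · intro h w _ A _ hA
        exact h A hA
    have h3 : trunc q θ ∈ Set.univ.pi s ↔
        (∀ A : NSub (Fin k), ¬ A.1.card ≤ q + 1 → (0 : unitInterval) ∈ s A) ∧
        ∀ A : NSub (Fin k), A.1.card ≤ q + 1 → θ A ∈ s A := by
      simp only [Set.mem_pi, Set.mem_univ, true_implies]
      constructor
      · intro h
        refine ⟨fun A hA => ?_, fun A hA => ?_⟩
        · have := h A
          unfold trunc at this
          rwa [if_neg hA] at this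
        · have := h A
          unfold trunc at this
          rwa [if_pos hA] at this
      · rintro ⟨ha, hb⟩ A
        unfold trunc
        split_ifs with hA
        · exact hb A hA
        · exact ha A hA
    by_cases ha : ∀ A : NSub (Fin k), ¬ A.1.card ≤ q + 1 → (0 : unitInterval) ∈ s A
    · have hc1 : c = 1 := if_pos ha
      by_cases hb : ∀ A : NSub (Fin k), A.1.card ≤ q + 1 → θ A ∈ s A
      · rw [Set.indicator_of_mem (h3.mpr ⟨ha, hb⟩), hc1,
          prod_one _ _ fun w hw => if_pos (h2.mpr hb w hw)]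
        ring
      · rw [Set.indicator_of_notMem (fun h => hb (h3.mp h).2), prod_zero]
        · ring
        · by_contra hcon
          push Not at hcon
          refine hb (h2.mp fun w hw => ?_)
          by_contra hw'
          exact hcon w hw (if_neg hw')
    · have hc0 : c = 0 := if_neg ha
      rw [Set.indicator_of_notMem (fun h => ha (h3.mp h).1), hc0]
      ring
  rw [hrew]
  have hc : |c| ≤ 1 := by
    simp only [c]
    split_ifs <;> simp
  refine main_ind hΞ l.length (Fin k) β v (fun κ => c * F κ) (fun κ => ?_) (fun κ => ?_) l rfl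
    (fun w hw => ?_) H (fun w => ?_) (fun w θ => ?_) (fun w θ θ' h => ?_)
  · rw [abs_mul]
    exact mul_le_one₀ hc (abs_nonneg _) (hF κ)
  · rw [hodd]
    ring
  · obtain ⟨i, hi⟩ := (List.mem_ofFn' _ _).mp hw
    exact ⟨i, hi⟩
  · refine Measurable.ite ?_ measurable_const measurable_const
    have : {θ : Cube (Fin k) | ∀ A : NSub (Fin k), w ∉ A.1 → A.1.card ≤ q + 1 → θ A ∈ s A} =
        ⋂ A : NSub (Fin k), {θ : Cube (Fin k) | w ∉ A.1 → A.1.card ≤ q + 1 → θ A ∈ s A} := by
      ext θ
      simp
    rw [this]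
    refine MeasurableSet.iInter fun A => ?_
    by_cases h1 : w ∉ A.1
    · by_cases h2 : A.1.card ≤ q + 1
      · simp only [h1, h2, not_false_iff, true_implies]
        exact (measurable_pi_apply A) (hs A)
      · simp only [h2, false_implies, implies_true, Set.ofPred_true]
        exact MeasurableSet.univ
    · simp only [h1, false_implies, Set.ofPred_true]
      exact MeasurableSet.univ
  · simp only [H]
    split_ifs <;> simp
  · simp only [H]
    have : (∀ A : NSub (Fin k), w ∉ A.1 → A.1.card ≤ q + 1 → θ A ∈ s A) ↔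
        (∀ A : NSub (Fin k), w ∉ A.1 → A.1.card ≤ q + 1 → θ' A ∈ s A) := by
      constructor
      · intro h1 A hA hA'
        rw [← h A hA]
        exact h1 A hA hA'
      · intro h1 A hA hA'
        rw [h A hA]
        exact h1 A hA hA'
    simp only [this]

omit hΞ in
lemma adm_ind {k : ℕ} (F : Str (LK q) (Fin k) → ℝ) {S : Set (Cube (Fin k))}
    (hS : MeasurableSet S) :
    Adm fun κ θ => F κ * S.indicator (fun _ => (1 : ℝ)) (trunc q θ) := by
  refine (Adm.of_K F).mul (Adm.of_theta (C := 1) ?_ fun θ => ?_)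
  · exact (measurable_const.indicator hS).comp measurable_trunc
  · by_cases h : trunc q θ ∈ S
    · rw [Set.indicator_of_mem h]; simp
    · rw [Set.indicator_of_notMem h]; simp

lemma eE_ind {k n : ℕ} (F : Str (LK q) (Fin k) → ℝ) {S : Set (Cube (Fin k))}
    (hS : MeasurableSet S) (g : Fin k ↪ Fin n) :
    eE R Ξ (fun κ θ => F κ * S.indicator (fun _ => (1 : ℝ)) (trunc q θ)) n =
      ∫ θ in {θ : Cube (Fin n) | trunc q (θ.comap g) ∈ S},
        integrand R Ξ n (fun κ _ => F (κ.comap g)) θ ∂(cubeMeasure n) := by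
  have hS' : MeasurableSet {θ : Cube (Fin n) | trunc q (θ.comap g) ∈ S} :=
    (measurable_trunc.comp (Cube.measurable_comap g)) hS
  rw [eE_eq hΞ (adm_ind F hS) g, ← integral_indicator hS']
  unfold EE
  congr 1
  funext θ
  by_cases h : trunc q (θ.comap g) ∈ S
  · rw [Set.indicator_of_mem (by exact h)]
    simp only [integrand, pull]
    rw [Set.indicator_of_mem h]
    simp
  · rw [Set.indicator_of_notMem (by exact h)]
    simp only [integrand, pull]
    rw [Set.indicator_of_notMem h]
    simp

/-- The statement for all measurable sets. -/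
lemma all_case {k : ℕ} (β : Tup q (Fin k)) (v : Z4) (F : Str (LK q) (Fin k) → ℝ)
    (hF : ∀ κ, |F κ| ≤ 1) (hodd : ∀ κ, F (flip (site β v) κ) = - F κ)
    (S : Set (Cube (Fin k))) (hS : MeasurableSet S) :
    Tendsto (eE R Ξ (fun κ θ => F κ *
      S.indicator (fun _ => (1 : ℝ)) (trunc q θ))) atTop (𝓝 0) := by
  classical
  refine MeasurableSpace.induction_on_inter
    (C := fun S _ => Tendsto (eE R Ξ (fun κ θ => F κ *
      S.indicator (fun _ => (1 : ℝ)) (trunc q θ))) atTop (𝓝 0))
    generateFrom_pi.symm isPiSystem_pi ?_ ?_ ?_ ?_ S hS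
  · have : (fun (κ : Str (LK q) (Fin k)) (θ : Cube (Fin k)) => F κ *
        (∅ : Set (Cube (Fin k))).indicator (fun _ => (1 : ℝ)) (trunc q θ)) =
        fun κ θ => 0 * (F κ * (Set.univ : Set (Cube (Fin k))).indicator (fun _ => (1 : ℝ))
          (trunc q θ)) := by
      funext κ θ
      simp
    have h0 : ∀ n, eE R Ξ (fun (κ : Str (LK q) (Fin k)) (θ : Cube (Fin k)) => F κ *
        (∅ : Set (Cube (Fin k))).indicator (fun _ => (1 : ℝ)) (trunc q θ)) n = 0 := by
      intro n
      by_cases h : Nonempty (Fin k ↪ Fin n)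
      · obtain ⟨g⟩ := h
        rw [eE_ind hΞ F MeasurableSet.empty g]
        simp
      · unfold eE
        rw [dif_neg h]
    exact tendsto_const_nhds.congr fun n => (h0 n).symm
  · rintro t ⟨s, hs, rfl⟩
    exact box_case hΞ β v F hF hodd s fun A => hs A (Set.mem_univ A)
  · intro t ht hlim
    have h1 : ∀ n, eE R Ξ (fun κ θ => F κ * (tᶜ).indicator (fun _ => (1 : ℝ)) (trunc q θ)) n =
        - eE R Ξ (fun κ θ => F κ * t.indicator (fun _ => (1 : ℝ)) (trunc q θ)) n := by
      intro n
      have h2 := eE_add hΞ (n := n) (adm_ind F ht.compl) (adm_ind F ht)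
      have h3 : (fun (κ : Str (LK q) (Fin k)) (θ : Cube (Fin k)) =>
          F κ * (tᶜ).indicator (fun _ => (1 : ℝ)) (trunc q θ) +
          F κ * t.indicator (fun _ => (1 : ℝ)) (trunc q θ)) = fun κ _ => F κ := by
        funext κ θ
        by_cases h : trunc q θ ∈ t
        · rw [Set.indicator_of_mem h,
            Set.indicator_of_notMem (fun h' : trunc q θ ∈ tᶜ => h' h)]
          ring
        · rw [Set.indicator_of_notMem h, Set.indicator_of_mem (by exact h)]
          ring
      rw [h3, base_case hΞ β v F hodd n] at h2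
      linarith
    have h4 := hlim.neg
    rw [neg_zero] at h4
    exact h4.congr fun n => (h1 n).symm
  · intro f hd hf hlim
    let bound : ℕ → ℝ := fun i => (cubeMeasure k).real {θ | trunc q θ ∈ f i}
    have hmeas : ∀ i, MeasurableSet {θ : Cube (Fin k) | trunc q θ ∈ f i} := fun i =>
      measurable_trunc (hf i)
    have hsum : Summable bound := by
      refine summable_measure_toReal hmeas ?_
      intro i j hij
      refine Set.disjoint_left.mpr fun θ hi hj => ?_
      exact Set.disjoint_left.mp (hd hij) hi hj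
    have hb : ∀ n i, ‖eE R Ξ (fun κ θ => F κ * (f i).indicator (fun _ => (1 : ℝ))
        (trunc q θ)) n‖ ≤ bound i := by
      intro n i
      rw [Real.norm_eq_abs]
      by_cases h : Nonempty (Fin k ↪ Fin n)
      · obtain ⟨g⟩ := h
        rw [eE_eq hΞ (adm_ind F (hf i)) g]
        have hmeas' : MeasurableSet {θ : Cube (Fin n) | trunc q (θ.comap g) ∈ f i} :=
          (Cube.measurable_comap g) (hmeas i)
        have h1 := EE_abs_le hΞ n ((adm_ind F (hf i)).pull g)
          (h := {θ : Cube (Fin n) | trunc q (θ.comap g) ∈ f i}.indicator 1)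
          (Adm.of_theta (C := 1) (measurable_const.indicator hmeas') fun θ => by
            by_cases h : trunc q (θ.comap g) ∈ f i
            · rw [Set.indicator_of_mem (by exact h)]; simp
            · rw [Set.indicator_of_notMem (by exact h)]; simp)
          (fun κ θ => by
            simp only [pull]
            by_cases h : trunc q (θ.comap g) ∈ f i
            · rw [Set.indicator_of_mem h, Set.indicator_of_mem (by exact h), mul_one]
              exact hF _
            · rw [Set.indicator_of_notMem h, Set.indicator_of_notMem (by exact h), mul_zero,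
                abs_zero])
        refine h1.trans (le_of_eq ?_)
        rw [integral_indicator_one hmeas']
        have h2 := (Cube.mp_comap g).measure_preimage (hmeas i).nullMeasurableSet
        simp only [bound, measureReal_def]
        rw [← h2]
        rfl
      · unfold eE
        rw [dif_neg h, abs_zero]
        exact measureReal_nonneg
    have htsum : ∀ n, eE R Ξ (fun κ θ => F κ * (⋃ i, f i).indicator (fun _ => (1 : ℝ))
        (trunc q θ)) n = ∑' i, eE R Ξ (fun κ θ => F κ * (f i).indicator (fun _ => (1 : ℝ))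
        (trunc q θ)) n := by
      intro n
      by_cases h : Nonempty (Fin k ↪ Fin n)
      · obtain ⟨g⟩ := h
        rw [eE_ind hΞ F (MeasurableSet.iUnion hf) g]
        simp_rw [fun i => eE_ind hΞ F (hf i) g]
        have hU : {θ : Cube (Fin n) | trunc q (θ.comap g) ∈ ⋃ i, f i} =
            ⋃ i, {θ : Cube (Fin n) | trunc q (θ.comap g) ∈ f i} := by
          ext θ
          simp
        rw [hU]
        symm
        refine (hasSum_integral_iUnion (fun i => ?_) (fun i j hij => ?_) ?_).tsum_eq
        · exact (Cube.measurable_comap g) (hmeas i)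
        · refine Set.disjoint_left.mpr fun θ hi hj => ?_
          exact Set.disjoint_left.mp (hd hij) hi hj
        · exact (integrable_integrand n ((Adm.of_K F).pull g)).integrableOn
      · have h0 : ∀ Φ : Str (LK q) (Fin k) → Cube (Fin k) → ℝ, eE R Ξ Φ n = 0 := by
          intro Φ
          unfold eE
          rw [dif_neg h]
        rw [h0]
        simp_rw [h0]
        simp
    have h5 := tendsto_tsum_of_dominated_convergence (β := ℕ) (G := ℝ) (𝓕 := atTop)
      (f := fun n i => eE R Ξ (fun κ θ => F κ * (f i).indicator (fun _ => (1 : ℝ))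
        (trunc q θ)) n) (g := fun _ => 0) hsum (fun i => hlim i)
      (Eventually.of_forall fun n i => hb n i)
    rw [tsum_zero] at h5
    exact h5.congr fun n => (htsum n).symm

/-- Odd functions of the first structure are orthogonal to the second one. -/
lemma orth (hR : ∀ i, DependsOn (fun x => x ∈ R.N i) {B : NSub (Fin (L'.ar i)) | B.1.card ≤ q + 1})
    {k : ℕ} (β : Tup q (Fin k)) (v : Z4) (F : Str (LK q) (Fin k) → ℝ)
    (hF : ∀ κ, |F κ| ≤ 1) (hodd : ∀ κ, F (flip (site β v) κ) = - F κ)
    (μ₀ : Str L' (Fin k)) : ∑ κ, Ξ k κ μ₀ * F κ = 0 := by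
  classical
  have h1 := all_case hΞ β v F hF hodd {θ | R.str θ = μ₀} (R.measurableSet_str μ₀)
  have h2 : ∀ n ≥ k, eE R Ξ (fun κ θ => F κ *
      {θ : Cube (Fin k) | R.str θ = μ₀}.indicator (fun _ => (1 : ℝ)) (trunc q θ)) n =
      ∑ κ, Ξ k κ μ₀ * F κ := by
    intro n hn
    let g : Fin k ↪ Fin n := Fin.castLEEmb hn
    rw [eE_eq hΞ (adm_ind F (R.measurableSet_str μ₀)) g]
    have h3 : pull (fun κ θ => F κ *
        {θ : Cube (Fin k) | R.str θ = μ₀}.indicator (fun _ => (1 : ℝ)) (trunc q θ)) g =
        fun κ θ => F (κ.comap g) * if (R.str θ).comap g = μ₀ then 1 else 0 := by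
      funext κ θ
      simp only [pull]
      have h5 : trunc q (θ.comap g) ∈ {θ : Cube (Fin k) | R.str θ = μ₀} ↔
          (R.str θ).comap g = μ₀ := by
        rw [R.str_comap]
        show R.str (trunc q (θ.comap g)) = μ₀ ↔ _
        rw [str_trunc hR]
      by_cases h6 : (R.str θ).comap g = μ₀
      · rw [Set.indicator_of_mem (h5.mpr h6), if_pos h6]
      · rw [Set.indicator_of_notMem (fun h => h6 (h5.mp h)), if_neg h6]
    rw [h3, EE_str hΞ n fun κ μ => F (κ.comap g) * if μ.comap g = μ₀ then 1 else 0,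
      hΞ.cons g fun κ μ => F κ * if μ = μ₀ then 1 else 0]
    refine Finset.sum_congr rfl fun κ _ => ?_
    rw [Finset.sum_eq_single μ₀]
    · rw [if_pos rfl, mul_one]
    · intro μ _ hμ
      rw [if_neg hμ, mul_zero, mul_zero]
    · intro h
      exact absurd (Finset.mem_univ _) h
  have h4 : Tendsto (fun _ : ℕ => ∑ κ, Ξ k κ μ₀ * F κ) atTop (𝓝 0) := by
    refine h1.congr' ?_
    filter_upwards [eventually_ge_atTop k] with n hn
    exact h2 n hn
  exact tendsto_nhds_unique tendsto_const_nhds h4

lemma Xi_flip (hR : ∀ i, DependsOn (fun x => x ∈ R.N i)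
    {B : NSub (Fin (L'.ar i)) | B.1.card ≤ q + 1})
    {k : ℕ} (β : Tup q (Fin k)) (v : Z4) (κ : Str (LK q) (Fin k))
    (μ₀ : Str L' (Fin k)) : Ξ k (flip (site β v) κ) μ₀ = Ξ k κ μ₀ := by
  classical
  have h := orth hΞ hR β v (fun κ' => (if κ' = κ then (1 : ℝ) else 0) -
    (if κ' = flip (site β v) κ then 1 else 0)) (fun κ' => ?_) (fun κ' => ?_) μ₀
  · simp only [mul_sub, mul_ite, mul_one, mul_zero, Finset.sum_sub_distrib,
      Finset.sum_ite_eq', Finset.mem_univ, if_true] at h
    linarith
  · rw [abs_le]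
    constructor <;> split_ifs <;> norm_num
  · have h1 : flip (site β v) κ' = κ ↔ κ' = flip (site β v) κ := by
      constructor
      · rintro rfl
        rw [flip_flip]
      · rintro rfl
        rw [flip_flip]
    have h2 : flip (site β v) κ' = flip (site β v) κ ↔ κ' = κ :=
      (flip_injective _).eq_iff
    simp only [h1, h2]
    ring

/-- The coupling is determined. -/
lemma Xi_eq (hR : ∀ i, DependsOn (fun x => x ∈ R.N i)
    {B : NSub (Fin (L'.ar i)) | B.1.card ≤ q + 1})
    {k : ℕ} (κ : Str (LK q) (Fin k)) (μ₀ : Str L' (Fin k)) :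
    Ξ k κ μ₀ = labK q k κ * (cubeMeasure k).real {θ | R.str θ = μ₀} := by
  classical
  let c : Str L' (Fin k) → ℝ := fun μ => Ξ k (K (0 : Hid q k)) μ
  have h1 : ∀ (x : Hid q k) μ, Ξ k (K x) μ = c μ := fun x μ =>
    const_of_flip (fun κ => Ξ k κ μ) (fun β v κ => Xi_flip hΞ hR β v κ μ) x 0
  let S : Finset (Str (LK q) (Fin k)) := Finset.univ.filter fun κ => ∃ x : Hid q k, K x = κ
  have h2 : ∀ κ μ, Ξ k κ μ = if κ ∈ S then c μ else 0 := by
    intro κ μ
    split_ifs with h
    · obtain ⟨x, rfl⟩ := (Finset.mem_filter.mp h).2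
      exact h1 x μ
    · have h3 : labK q k κ = 0 := by
        unfold labK avg
        rw [Finset.sum_eq_zero, zero_div]
        intro x _
        rw [if_neg]
        intro hx
        exact h (Finset.mem_filter.mpr ⟨Finset.mem_univ _, x, hx⟩)
      rw [← hΞ.left] at h3
      exact (Finset.sum_eq_zero_iff_of_nonneg fun μ _ => hΞ.nonneg k κ μ).mp h3 μ
        (Finset.mem_univ _)
  have h3 : ∀ μ, (cubeMeasure k).real {θ | R.str θ = μ} = S.card * c μ := by
    intro μ
    rw [← hΞ.right]
    rw [Finset.sum_congr rfl fun κ _ => h2 κ μ, Finset.sum_ite_mem, Finset.univ_inter,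
      Finset.sum_const, nsmul_eq_mul]
  have h4 : ∀ κ, labK q k κ = if κ ∈ S then ∑ μ, c μ else 0 := by
    intro κ
    rw [← hΞ.left, Finset.sum_congr rfl fun μ _ => h2 κ μ]
    by_cases h : κ ∈ S
    · rw [if_pos h]
      exact Finset.sum_congr rfl fun μ _ => if_pos h
    · rw [if_neg h]
      exact Finset.sum_eq_zero fun μ _ => if_neg h
  have h5 : (S.card : ℝ) * ∑ μ, c μ = 1 := by
    have h6 := sum_labK (q := q) k (fun _ => 1)
    rw [avg_const] at h6
    simp only [mul_one] at h6
    rw [Finset.sum_congr rfl fun κ _ => h4 κ, Finset.sum_ite_mem, Finset.univ_inter,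
      Finset.sum_const, nsmul_eq_mul] at h6
    exact h6
  rw [h2, h3, h4]
  split_ifs
  · linear_combination (- c μ₀) * h5
  · ring

end

/-- A structure in the disjoint union of two languages. -/
def mkPair {L L' : Lang} (κ : Str L V) (μ : Str L' V) : Str (L.sum L') V := fun i =>
  match i with
  | Sum.inl i => κ i
  | Sum.inr i => μ i

/-- Structures in the disjoint union of two languages are pairs of structures. -/
def pairEquiv (L L' : Lang) (V : Type) : Str (L.sum L') V ≃ Str L V × Str L' V where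
  toFun N := (N.left, N.right)
  invFun z := mkPair z.1 z.2
  left_inv N := by
    funext i
    cases i <;> rfl
  right_inv z := rfl

lemma sum_pair {L L' : Lang} {k : ℕ} (f : Str (L.sum L') (Fin k) → ℝ) :
    ∑ N, f N = ∑ κ : Str L (Fin k), ∑ μ : Str L' (Fin k), f (mkPair κ μ) := by
  classical
  rw [← (pairEquiv L L' (Fin k)).symm.sum_comp, Fintype.sum_prod_type]
  rfl

lemma coupData_of {T : CanonicalTheory (LK q)} {T' : CanonicalTheory L'} {φ : Obj (LK q)}
    (hφ : ∀ n M, lab φ n M = labK q n M) {ψ : Obj L'} {R : Rep L'} (hrep : R.Represents ψ)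
    {ξ : Obj ((LK q).sum L')} (hξ : IsCoupling T T' φ ψ ξ) :
    CoupData q R fun n κ μ => lab ξ n (mkPair κ μ) := by
  classical
  obtain ⟨N, _, h1, h2, h3⟩ := hξ
  refine ⟨fun n κ μ => lab_nonneg h1 n _, ?_, ?_, ?_⟩
  · intro j k f F
    have h4 := lab_consistent h1 f (fun M => F M.left M.right)
    rw [sum_pair, sum_pair] at h4
    exact h4
  · intro n κ
    have h4 := lab_left h1 h2 n (fun κ' => if κ' = κ then (1 : ℝ) else 0)
    rw [sum_pair] at h4
    simp only [mul_ite, mul_one, mul_zero, Finset.sum_ite_eq', Finset.mem_univ, if_true] at h4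
    rw [← hφ, ← h4]
    rw [Finset.sum_eq_single κ]
    · refine Finset.sum_congr rfl fun μ _ => ?_
      rw [if_pos]
      rfl
    · intro κ' _ hκ'
      refine Finset.sum_eq_zero fun μ _ => ?_
      rw [if_neg]
      exact hκ'
    · intro h
      exact absurd (Finset.mem_univ _) h
  · intro n μ
    have h4 := lab_right h1 h3 n (fun μ' => if μ' = μ then (1 : ℝ) else 0)
    rw [sum_pair] at h4
    simp only [mul_ite, mul_one, mul_zero, Finset.sum_ite_eq', Finset.mem_univ, if_true] at h4
    rw [← hrep.lab_eq n μ, ← h4]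
    refine Finset.sum_congr rfl fun κ _ => ?_
    rw [Finset.sum_eq_single μ]
    · rw [if_pos]
      rfl
    · intro μ' _ hμ'
      rw [if_neg]
      exact hμ'
    · intro h
      exact absurd (Finset.mem_univ _) h

/-- The separating object is in `UCouple[q + 1]`. -/
theorem ucouple_phiK (q : ℕ) : UCouple (freeTheory (LK q)) (phiK q) (q + 1) := by
  intro L' T' ψ _ hrk ξ ξ' hξ hξ'
  obtain ⟨R, hrep, hR⟩ := hrk
  have hc := coupData_of (lab_phiK q) hrep hξ
  have hc' := coupData_of (lab_phiK q) hrep hξ'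
  apply lab_inj
  intro k M
  have h1 := Xi_eq hc hR (k := k) M.left M.right
  have h2 := Xi_eq hc' hR (k := k) M.left M.right
  have h3 : mkPair M.left M.right = M := (pairEquiv _ _ _).left_inv M
  simp only [h3] at h1 h2
  rw [h1, h2]

end Pool.Agent.Lib.MP_e98621_co
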