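import Mathlib
import Pool.Agent.Lib.MP_e98621_co.KStruct
import Pool.Agent.Lib.MP_e98621_co.CubeLemmas

/-!
# The separating object is not in `Independence[1]`
-/

namespace Pool.Agent.Lib.MP_e98621_co

open MeasureTheory Filter Topology

variable {q : ℕ}

/-- Number of vertices: `a`, `b` and three blocks of size `q`. -/
abbrev nn (q : ℕ) : ℕ := 3 * q + 2

/-- The tuple `(a, b, c_i)`. -/
def bet (q : ℕ) (i : Fin 3) : Tup q (Fin (nn q)) :=
  ⟨fun j => ⟨if j.1 < 2 then j.1 else j.1 + i.1 * q, by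
      have h1 := j.2
      have h2 : i.1 * q ≤ 2 * q := Nat.mul_le_mul_right _ (by omega)
      unfold nn
      split_ifs <;> omega⟩,
    fun j k h => by
      apply Fin.ext
      simp only [Fin.mk.injEq] at h
      split_ifs at h <;> omega⟩

/-- The tuple `(a, b, c_i, c_j)`. -/
def alp (q : ℕ) (i j : Fin 3) (hij : i < j) : Tup2 q (Fin (nn q)) :=
  ⟨fun t => ⟨if t.1 < 2 then t.1 else if t.1 < q + 2 then t.1 + i.1 * q else t.1 - q + j.1 * q, by
      have h1 := t.2
      have h2 : i.1 * q ≤ 2 * q := Nat.mul_le_mul_right _ (by omega)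
      have h3 : j.1 * q ≤ 2 * q := Nat.mul_le_mul_right _ (by omega)
      unfold nn
      split_ifs <;> omega⟩,
    fun s t h => by
      apply Fin.ext
      have h1 := s.2
      have h2 := t.2
      have h3 : i.1 * q + q ≤ j.1 * q := by
        have : (i.1 + 1) * q ≤ j.1 * q := Nat.mul_le_mul_right _ (by omega)
        linarith
      simp only [Fin.mk.injEq] at h
      split_ifs at h <;> omega⟩

lemma alp_e1 (i j : Fin 3) (hij : i < j) : (e1 q).trans (alp q i j hij) = bet q i := by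
  refine DFunLike.ext _ _ fun t => ?_
  apply Fin.ext
  have h1 := t.2
  show (if t.1 < 2 then t.1 else if t.1 < q + 2 then t.1 + i.1 * q else t.1 - q + j.1 * q) =
    (if t.1 < 2 then t.1 else t.1 + i.1 * q)
  split_ifs <;> rfl

lemma alp_e2 (i j : Fin 3) (hij : i < j) : (e2 q).trans (alp q i j hij) = bet q j := by
  refine DFunLike.ext _ _ fun t => ?_
  apply Fin.ext
  have h1 := t.2
  show (if (if t.1 < 2 then t.1 else t.1 + q) < 2 then (if t.1 < 2 then t.1 else t.1 + q)
    else if (if t.1 < 2 then t.1 else t.1 + q) < q + 2 then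
      (if t.1 < 2 then t.1 else t.1 + q) + i.1 * q
      else (if t.1 < 2 then t.1 else t.1 + q) - q + j.1 * q) =
    (if t.1 < 2 then t.1 else t.1 + j.1 * q)
  split_ifs <;> omega

/-- The `i`-th block. -/
def blk (q : ℕ) (i : Fin 3) (v : Fin (nn q)) : Prop :=
  2 + i.1 * q ≤ v.1 ∧ v.1 < 2 + (i.1 + 1) * q

/-- The set `A` meets the `i`-th block. -/
def meets (i : Fin 3) (A : NSub (Fin (nn q))) : Prop := ∃ v ∈ A.1, blk q i v

/-- The exchange of `a` and `b`. -/
def tauV (q : ℕ) : Fin (nn q) ↪ Fin (nn q) := (Equiv.swap 0 1).toEmbedding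

/-- The exchange of `a` and `b` on subsets. -/
def tauN (A : NSub (Fin (nn q))) : NSub (Fin (nn q)) := ⟨A.1.map (tauV q), A.2.map⟩

lemma tauV_tauV : (tauV q).trans (tauV q) = Function.Embedding.refl _ := by
  refine DFunLike.ext _ _ fun v => ?_
  simp [tauV]

lemma tauN_tauN (A : NSub (Fin (nn q))) : tauN (tauN A) = A := by
  apply Subtype.ext
  simp only [tauN, Finset.map_map, tauV_tauV, Finset.map_refl]

lemma tauV_blk {i : Fin 3} {v : Fin (nn q)} (h : blk q i v) : tauV q v = v := by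
  simp only [tauV, Equiv.coe_toEmbedding]
  apply Equiv.swap_apply_of_ne_of_ne
  · rintro rfl
    have h1 : 2 + i.1 * q ≤ 0 := h.1
    omega
  · rintro rfl
    have h1 : 2 + i.1 * q ≤ 1 := h.1
    omega

lemma meets_tauN (i : Fin 3) (A : NSub (Fin (nn q))) : meets i (tauN A) ↔ meets i A := by
  have key : ∀ A : NSub (Fin (nn q)), meets i A → meets i (tauN A) := by
    rintro A ⟨v, hv, hb⟩
    refine ⟨tauV q v, Finset.mem_map_of_mem _ hv, ?_⟩
    rw [tauV_blk hb]
    exact hb
  constructor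
  · intro h
    have := key _ h
    rwa [tauN_tauN] at this
  · exact key A

/-- The partial exchange: exchange `a` and `b` in the sets whose pattern satisfies `P`. -/
noncomputable def piP (P : (Fin 3 → Prop) → Prop) (A : NSub (Fin (nn q))) : NSub (Fin (nn q)) := by
  classical
  exact if P (fun i => meets i A) then tauN A else A

lemma pattern_tauN (A : NSub (Fin (nn q))) :
    (fun i => meets i (tauN A)) = fun i => meets i A := by
  funext i
  exact propext (meets_tauN i A)

lemma piP_piP (P : (Fin 3 → Prop) → Prop) (A : NSub (Fin (nn q))) : piP P (piP P A) = A := by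
  classical
  by_cases h : P (fun i => meets i A)
  · have h1 : piP P A = tauN A := if_pos h
    have h2 : P (fun i => meets i (tauN A)) := by rwa [pattern_tauN]
    rw [h1]
    have h3 : piP P (tauN A) = tauN (tauN A) := if_pos h2
    rw [h3, tauN_tauN]
  · have h1 : piP P A = A := if_neg h
    rw [h1, h1]

/-- The transformed coordinates. -/
noncomputable def act (P : (Fin 3 → Prop) → Prop) (θ : Cube (Fin (nn q))) : Cube (Fin (nn q)) :=
  fun A => θ (piP P A)

lemma mp_act (P : (Fin 3 → Prop) → Prop) :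
    MeasurePreserving (act P) (cubeMeasure (nn q)) (cubeMeasure (nn q)) := by
  apply mp_comp (piP P)
  intro A B h
  rw [← piP_piP P A, h, piP_piP]

/-- The image of a set of positions under a tuple. -/
def img {m : ℕ} (α : Fin m ↪ Fin (nn q)) (B : NSub (Fin m)) : NSub (Fin (nn q)) :=
  ⟨B.1.map α, B.2.map⟩

lemma comap_act_eq {m : ℕ} (α : Fin m ↪ Fin (nn q)) (P Q : (Fin 3 → Prop) → Prop)
    (h : ∀ B, P (fun i => meets i (img α B)) ↔ Q (fun i => meets i (img α B)))
    (θ : Cube (Fin (nn q))) : (act P θ).comap α = (act Q θ).comap α := by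
  classical
  funext B
  show θ (piP P (img α B)) = θ (piP Q (img α B))
  congr 1
  unfold piP
  simp only [h B]

lemma val_cases (v : Fin (nn q)) : v = 0 ∨ v = 1 ∨ ∃ i, blk q i v := by
  by_cases h0 : v.1 = 0
  · left; exact Fin.ext h0
  by_cases h1 : v.1 = 1
  · right; left; exact Fin.ext h1
  right; right
  have hv : v.1 < 3 * q + 2 := v.2
  by_cases h2 : v.1 < 2 + q
  · refine ⟨0, ?_, ?_⟩ <;> simp <;> omega
  by_cases h3 : v.1 < 2 + 2 * q
  · refine ⟨1, ?_, ?_⟩ <;> simp <;> omega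
  · refine ⟨2, ?_, ?_⟩ <;> simp <;> omega

lemma tauN_fixed {A : NSub (Fin (nn q))} (h : ∀ i, ¬ meets i A) (hc : 1 < A.1.card) :
    tauN A = A := by
  have hsub : A.1 ⊆ {0, 1} := by
    intro v hv
    rcases val_cases v with rfl | rfl | ⟨i, hi⟩
    · simp
    · simp
    · exact absurd ⟨v, hv, hi⟩ (h i)
  have hA : A.1 = {0, 1} := by
    refine Finset.eq_of_subset_of_card_le hsub ?_
    exact (Finset.card_le_two).trans hc
  apply Subtype.ext
  simp only [tauN, hA]
  ext v
  simp [tauV, Finset.map_insert, or_comm]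

lemma act_swap {m : ℕ} (α : Fin m ↪ Fin (nn q)) (P Q : (Fin 3 → Prop) → Prop)
    (h : ∀ B, (∃ i, meets i (img α B)) →
      (P (fun i => meets i (img α B)) ↔ ¬ Q (fun i => meets i (img α B))))
    (θ : Cube (Fin (nn q))) (B : NSub (Fin m)) (hB : 1 < B.1.card) :
    (act P θ) (img α B) = (act Q θ) (tauN (img α B)) := by
  classical
  show θ (piP P (img α B)) = θ (piP Q (tauN (img α B)))
  congr 1
  by_cases hm : ∃ i, meets i (img α B)
  · have h1 := h B hm
    unfold piP
    rw [pattern_tauN]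
    by_cases hQ : Q (fun i => meets i (img α B))
    · rw [if_pos hQ, if_neg (fun hP => (h1.mp hP) hQ), tauN_tauN]
    · rw [if_neg hQ, if_pos (h1.mpr hQ)]
  · push Not at hm
    have hc : 1 < (img α B).1.card := by
      simpa [img] using hB
    have hfix := tauN_fixed hm hc
    unfold piP
    rw [hfix]
    split_ifs <;> first | rfl | exact hfix | exact hfix.symm

lemma map_swp (β : Tup q (Fin (nn q))) (hβ : (sw q).trans β = β.trans (tauV q))
    (B : Finset (Fin (q + 2))) : (B.map β).map (tauV q) = B.map (swp β) := by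
  rw [Finset.map_map, ← hβ]
  rfl

lemma map_swp2 (α : Tup2 q (Fin (nn q))) (hα : swp2 α = α.trans (tauV q))
    (B : Finset (Fin (2 * q + 2))) : (B.map α).map (tauV q) = B.map (swp2 α) := by
  rw [Finset.map_map, hα]

section main

variable (R : Rep (LK q))

/-- The predicate `E` is transported. -/
lemma E_act (hR : ∀ i, DependsOn (fun x => x ∈ R.N i) {B : NSub (Fin ((LK q).ar i)) | 1 < B.1.card})
    (β : Tup q (Fin (nn q))) (hβ : (sw q).trans β = β.trans (tauV q))
    (P Q : (Fin 3 → Prop) → Prop)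
    (h : ∀ B, (∃ i, meets i (img β B)) →
      (P (fun i => meets i (img β B)) ↔ ¬ Q (fun i => meets i (img β B))))
    (θ : Cube (Fin (nn q))) :
    (R.str (act P θ)).E β ↔ (R.str (act Q θ)).E (swp β) := by
  have hdep := hR Sym.E
  have : (fun x => x ∈ R.N Sym.E) ((act P θ).comap β) =
      (fun x => x ∈ R.N Sym.E) ((act Q θ).comap (swp β)) := by
    apply hdep
    intro B hB
    have h1 := act_swap β P Q h θ B hB
    show (act P θ) (img β B) = (act Q θ) ⟨B.1.map (swp β), B.2.map⟩
    rw [h1]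
    congr 1
    apply Subtype.ext
    exact map_swp β hβ B.1
  exact iff_of_eq this

/-- The predicate `D` is transported. -/
lemma D_act (hR : ∀ i, DependsOn (fun x => x ∈ R.N i) {B : NSub (Fin ((LK q).ar i)) | 1 < B.1.card})
    (α : Tup2 q (Fin (nn q))) (hα : swp2 α = α.trans (tauV q))
    (P Q : (Fin 3 → Prop) → Prop)
    (h : ∀ B, (∃ i, meets i (img α B)) →
      (P (fun i => meets i (img α B)) ↔ ¬ Q (fun i => meets i (img α B))))
    (θ : Cube (Fin (nn q))) :
    (R.str (act P θ)).D α ↔ (R.str (act Q θ)).D (swp2 α) := by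
  have hdep := hR Sym.D
  have : (fun x => x ∈ R.N Sym.D) ((act P θ).comap α) =
      (fun x => x ∈ R.N Sym.D) ((act Q θ).comap (swp2 α)) := by
    apply hdep
    intro B hB
    have h1 := act_swap α P Q h θ B hB
    show (act P θ) (img α B) = (act Q θ) ⟨B.1.map (swp2 α), B.2.map⟩
    rw [h1]
    congr 1
    apply Subtype.ext
    exact map_swp2 α hα B.1
  exact iff_of_eq this

lemma D_act_eq (α : Tup2 q (Fin (nn q))) (P Q : (Fin 3 → Prop) → Prop)
    (h : ∀ B, P (fun i => meets i (img α B)) ↔ Q (fun i => meets i (img α B)))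
    (θ : Cube (Fin (nn q))) :
    (R.str (act P θ)).D α ↔ (R.str (act Q θ)).D α := by
  show (act P θ).comap α ∈ R.N Sym.D ↔ (act Q θ).comap α ∈ R.N Sym.D
  rw [comap_act_eq α P Q h]

lemma E_act_eq (β : Tup q (Fin (nn q))) (P Q : (Fin 3 → Prop) → Prop)
    (h : ∀ B, P (fun i => meets i (img β B)) ↔ Q (fun i => meets i (img β B)))
    (θ : Cube (Fin (nn q))) :
    (R.str (act P θ)).E β ↔ (R.str (act Q θ)).E β := by
  show (act P θ).comap β ∈ R.N Sym.E ↔ (act Q θ).comap β ∈ R.N Sym.E
  rw [comap_act_eq β P Q h]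

end main

lemma bet_meets {i j : Fin 3} {B : NSub (Fin (q + 2))} (h : meets j (img (bet q i) B)) :
    j = i := by
  obtain ⟨v, hv, hb⟩ := h
  obtain ⟨t, _, rfl⟩ := Finset.mem_map.mp hv
  have ht := t.2
  have h1 := hb.1
  have h2 := hb.2
  have h3 : (bet q i t).1 = if t.1 < 2 then t.1 else t.1 + i.1 * q := rfl
  rw [h3] at h1 h2
  have h4 : (j.1 + 1) * q = j.1 * q + q := by ring
  rw [h4] at h2
  split_ifs at h1 h2 with h5
  · omega
  · by_contra hne
    rcases lt_or_gt_of_ne (fun h => hne (Fin.ext h) : j.1 ≠ i.1) with h6 | h6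
    · have : (j.1 + 1) * q ≤ i.1 * q := Nat.mul_le_mul_right _ (by omega)
      rw [h4] at this
      omega
    · have : (i.1 + 1) * q ≤ j.1 * q := Nat.mul_le_mul_right _ (by omega)
      have h7 : (i.1 + 1) * q = i.1 * q + q := by ring
      rw [h7] at this
      omega

lemma alp_meets {i j k : Fin 3} (hij : i < j) {B : NSub (Fin (2 * q + 2))}
    (h : meets k (img (alp q i j hij) B)) : k = i ∨ k = j := by
  obtain ⟨v, hv, hb⟩ := h
  obtain ⟨t, _, rfl⟩ := Finset.mem_map.mp hv
  have ht := t.2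
  have h1 := hb.1
  have h2 := hb.2
  have h3 : (alp q i j hij t).1 = if t.1 < 2 then t.1 else if t.1 < q + 2 then t.1 + i.1 * q
    else t.1 - q + j.1 * q := rfl
  rw [h3] at h1 h2
  have h4 : ∀ k : Fin 3, (k.1 + 1) * q = k.1 * q + q := fun k => by ring
  rw [h4] at h2
  have key : ∀ l : Fin 3, ¬ (k = l) → k.1 * q + q ≤ l.1 * q ∨ l.1 * q + q ≤ k.1 * q := by
    intro l hl
    rcases lt_or_gt_of_ne (fun h => hl (Fin.ext h) : k.1 ≠ l.1) with h6 | h6
    · left
      have : (k.1 + 1) * q ≤ l.1 * q := Nat.mul_le_mul_right _ (by omega)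
      rwa [h4] at this
    · right
      have : (l.1 + 1) * q ≤ k.1 * q := Nat.mul_le_mul_right _ (by omega)
      rwa [h4] at this
  by_contra hne
  push Not at hne
  have k1 := key i hne.1
  have k2 := key j hne.2
  split_ifs at h1 h2 <;> omega

lemma sw_bet (i : Fin 3) : (sw q).trans (bet q i) = (bet q i).trans (tauV q) := by
  refine DFunLike.ext _ _ fun t => ?_
  simp only [Function.Embedding.trans_apply, sw, tauV, Equiv.coe_toEmbedding]
  rcases eq_or_ne t 0 with rfl | h0
  · rw [Equiv.swap_apply_left]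
    have e0 : bet q i 0 = 0 := rfl
    have e1 : bet q i 1 = 1 := rfl
    rw [e0, e1, Equiv.swap_apply_left]
  · rcases eq_or_ne t 1 with rfl | h1
    · rw [Equiv.swap_apply_right]
      have e0 : bet q i 0 = 0 := rfl
      have e1 : bet q i 1 = 1 := rfl
      rw [e0, e1, Equiv.swap_apply_right]
    · rw [Equiv.swap_apply_of_ne_of_ne h0 h1, Equiv.swap_apply_of_ne_of_ne]
      · intro h; exact h0 ((bet q i).injective (h.trans (rfl : bet q i 0 = 0).symm))
      · intro h; exact h1 ((bet q i).injective (h.trans (rfl : bet q i 1 = 1).symm))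

lemma swp2_alp (i j : Fin 3) (hij : i < j) :
    swp2 (alp q i j hij) = (alp q i j hij).trans (tauV q) := by
  refine DFunLike.ext _ _ fun t => ?_
  simp only [swp2, Function.Embedding.trans_apply, tauV, Equiv.coe_toEmbedding]
  have e0 : alp q i j hij 0 = 0 := rfl
  have e1 : alp q i j hij 1 = 1 := rfl
  rcases eq_or_ne t 0 with rfl | h0
  · rw [Equiv.swap_apply_left, e0, e1, Equiv.swap_apply_left]
  · rcases eq_or_ne t 1 with rfl | h1
    · rw [Equiv.swap_apply_right, e0, e1, Equiv.swap_apply_right]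
    · rw [Equiv.swap_apply_of_ne_of_ne h0 h1, Equiv.swap_apply_of_ne_of_ne]
      · intro h; exact h0 ((alp q i j hij).injective (h.trans e0.symm))
      · intro h; exact h1 ((alp q i j hij).injective (h.trans e1.symm))

lemma ae_range {φ : Obj (LK q)} {R : Rep (LK q)} (hrep : R.Represents φ)
    (hφ : ∀ n M, lab φ n M = labK q n M) (n : ℕ) :
    ∀ᵐ θ ∂(cubeMeasure n), ∃ x : Hid q n, K x = R.str θ := by
  classical
  rw [ae_iff]
  have hsub : {θ : Cube (Fin n) | ¬ ∃ x : Hid q n, K x = R.str θ} ⊆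
      ⋃ M : {M : Str (LK q) (Fin n) // ¬ ∃ x : Hid q n, K x = M}, {θ | R.str θ = M.1} := by
    intro θ hθ
    exact Set.mem_iUnion.mpr ⟨⟨R.str θ, hθ⟩, rfl⟩
  refine measure_mono_null hsub (measure_iUnion_null fun M => ?_)
  have h1 := hrep.lab_eq n M.1
  rw [hφ] at h1
  have h2 : labK q n M.1 = 0 := by
    unfold labK avg
    rw [Finset.sum_eq_zero, zero_div]
    intro x _
    rw [if_neg]
    exact fun h => M.2 ⟨x, h⟩
  rw [h2] at h1
  exact (measureReal_eq_zero_iff).mp h1.symm

/-- The propositional contradiction. -/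
lemma prop_contra {A12 A13 A23 B12 B13 B23 C12 C13 C23 D12 D13 D23 E0 E1 F0 F1 S0 S1 T0 : Prop}
    (c0 : A13 ↔ ¬ (A12 ↔ A23)) (c1 : B13 ↔ ¬ (B12 ↔ B23)) (c2 : C13 ↔ ¬ (C12 ↔ C23))
    (c3 : D13 ↔ ¬ (D12 ↔ D23)) (s0 : S0 ↔ (A12 ↔ (E0 ↔ E1))) (s1 : S1 ↔ (B12 ↔ (F0 ↔ F1)))
    (t0 : T0 ↔ ¬ E0) (h1 : D13 ↔ B13) (h2 : C13 ↔ A13) (h3 : D23 ↔ C23) (h4 : B23 ↔ A23)
    (h5 : F1 ↔ E1) (h6 : F0 ↔ T0) (h7 : D12 ↔ S0) (h8 : C12 ↔ S1) : False := by
  rw [h1, h7, s0, h3, c1, h4] at c3
  rw [h2, h8, s1, h6, t0, h5, c0] at c2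
  clear c0 c1 s0 s1 t0 h1 h2 h3 h4 h5 h6 h7 h8
  by_cases a : A12 <;> by_cases b : A23 <;> by_cases c : B12 <;> by_cases d : C23 <;>
    by_cases e : E0 <;> by_cases f : E1 <;> simp [a, b, c, d, e, f] at c2 c3

lemma fin3_01 : (0 : Fin 3) < 1 := by decide

lemma fin3_02 : (0 : Fin 3) < 2 := by decide

lemma fin3_12 : (1 : Fin 3) < 2 := by decide

/-- The pattern of no set. -/
def P0 : (Fin 3 → Prop) → Prop := fun _ => False

/-- The pattern of the sets that meet only the first block. -/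
def P1 : (Fin 3 → Prop) → Prop := fun m => m 0 ∧ ¬ m 1 ∧ ¬ m 2

/-- The pattern of the sets that meet the second block but not the third one. -/
def P2 : (Fin 3 → Prop) → Prop := fun m => m 1 ∧ ¬ m 2

/-- The pattern of the sets that meet one of the first two blocks but not the third one. -/
def P3 : (Fin 3 → Prop) → Prop := fun m => (m 0 ∨ m 1) ∧ ¬ m 2

lemma m01 (B : NSub (Fin (2 * q + 2))) : ¬ meets 2 (img (alp q 0 1 fin3_01) B) := fun h => by
  rcases alp_meets fin3_01 h with h | h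
  · exact absurd h (by decide)
  · exact absurd h (by decide)

lemma m02 (B : NSub (Fin (2 * q + 2))) : ¬ meets 1 (img (alp q 0 2 fin3_02) B) := fun h => by
  rcases alp_meets fin3_02 h with h | h
  · exact absurd h (by decide)
  · exact absurd h (by decide)

lemma m12 (B : NSub (Fin (2 * q + 2))) : ¬ meets 0 (img (alp q 1 2 fin3_12) B) := fun h => by
  rcases alp_meets fin3_12 h with h | h
  · exact absurd h (by decide)
  · exact absurd h (by decide)

/-- The separating object has no representation that depends only on the coordinates of sets of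
size larger than `1`. -/
theorem not_independence_one (q : ℕ) : ¬ Independence (phiK q) 1 := by
  rintro ⟨R, hrep, hR⟩
  have hgood := ae_range hrep (lab_phiK q) (nn q)
  have hg : ∀ P : (Fin 3 → Prop) → Prop,
      ∀ᵐ θ ∂(cubeMeasure (nn q)), ∃ x : Hid q (nn q), K x = R.str (act P θ) := fun P =>
    (mp_act P).quasiMeasurePreserving.ae hgood
  -- cocycle relations
  have coc : ∀ x : Hid q (nn q), (K x).D (alp q 0 2 fin3_02) ↔
      ¬ ((K x).D (alp q 0 1 fin3_01) ↔ (K x).D (alp q 1 2 fin3_12)) := fun x =>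
    K_D_cocycle x (by rw [alp_e1, alp_e1]) (by rw [alp_e2, alp_e1]) (by rw [alp_e2, alp_e2])
  have swD : ∀ x : Hid q (nn q), (K x).D (swp2 (alp q 0 1 fin3_01)) ↔
      ((K x).D (alp q 0 1 fin3_01) ↔ ((K x).E (bet q 0) ↔ (K x).E (bet q 1))) := fun x => by
    rw [K_D_swp, alp_e1, alp_e2]
  have swE : ∀ x : Hid q (nn q), (K x).E (swp (bet q 0)) ↔ ¬ (K x).E (bet q 0) := fun x =>
    K_E_swp x _
  -- invisible changes
  have d13_3_1 := D_act_eq R (alp q 0 2 fin3_02) P3 P1 (fun B => by
    have h := m02 B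
    unfold P3 P1
    clear hg hgood coc swD swE
    tauto)
  have d13_2_0 := D_act_eq R (alp q 0 2 fin3_02) P2 P0 (fun B => by
    have h := m02 B
    unfold P2 P0
    clear hg hgood coc swD swE d13_3_1
    tauto)
  have d23_3_2 := D_act_eq R (alp q 1 2 fin3_12) P3 P2 (fun B => by
    have h := m12 B
    unfold P3 P2
    clear hg hgood coc swD swE d13_3_1 d13_2_0
    tauto)
  have d23_1_0 := D_act_eq R (alp q 1 2 fin3_12) P1 P0 (fun B => by
    have h := m12 B
    unfold P1 P0
    clear hg hgood coc swD swE d13_3_1 d13_2_0 d23_3_2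
    tauto)
  have e2_1_0 := E_act_eq R (bet q 1) P1 P0 (fun B => by
    have h : ¬ meets 0 (img (bet q 1) B) := fun h => absurd (bet_meets h) (by decide)
    unfold P1 P0
    clear hg hgood coc swD swE d13_3_1 d13_2_0 d23_3_2 d23_1_0
    tauto)
  -- visible changes
  have e1_1_0 := E_act R hR (bet q 0) (sw_bet 0) P1 P0 (fun B hB => by
    have h1 : ¬ meets 1 (img (bet q 0) B) := fun h => absurd (bet_meets h) (by decide)
    have h2 : ¬ meets 2 (img (bet q 0) B) := fun h => absurd (bet_meets h) (by decide)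
    obtain ⟨i, hi⟩ := hB
    have h3 := bet_meets hi
    rw [h3] at hi
    unfold P1 P0
    exact ⟨fun _ h => h, fun _ => ⟨hi, h1, h2⟩⟩)
  have d12_3_0 := D_act R hR (alp q 0 1 fin3_01) (swp2_alp 0 1 fin3_01) P3 P0 (fun B hB => by
    have h2 := m01 B
    obtain ⟨i, hi⟩ := hB
    unfold P3 P0
    refine ⟨fun _ h => h, fun _ => ⟨?_, h2⟩⟩
    rcases alp_meets fin3_01 hi with h3 | h3
    · rw [h3] at hi
      exact Or.inl hi
    · rw [h3] at hi
      exact Or.inr hi)
  have d12_2_1 := D_act R hR (alp q 0 1 fin3_01) (swp2_alp 0 1 fin3_01) P2 P1 (fun B hB => by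
    have h2 := m01 B
    obtain ⟨i, hi⟩ := hB
    unfold P2 P1
    refine ⟨fun h h' => h'.2.1 h.1, fun h => ⟨?_, h2⟩⟩
    rcases alp_meets fin3_01 hi with h3 | h3
    · rw [h3] at hi
      by_contra h4
      exact h ⟨hi, h4, h2⟩
    · rw [h3] at hi
      exact hi)
  have hfalse : ∀ᵐ _θ ∂(cubeMeasure (nn q)), False := by
    filter_upwards [hg P0, hg P1, hg P2, hg P3] with θ h0 h1 h2 h3
    obtain ⟨x0, h0⟩ := h0
    obtain ⟨x1, h1⟩ := h1
    obtain ⟨x2, h2⟩ := h2
    obtain ⟨x3, h3⟩ := h3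
    have c0 := coc x0
    have c1 := coc x1
    have c2 := coc x2
    have c3 := coc x3
    have s0 := swD x0
    have s1 := swD x1
    have t0 := swE x0
    rw [h0] at c0 s0 t0
    rw [h1] at c1 s1
    rw [h2] at c2
    rw [h3] at c3
    exact prop_contra c0 c1 c2 c3 s0 s1 t0 (d13_3_1 θ) (d13_2_0 θ) (d23_3_2 θ) (d23_1_0 θ)
      (e2_1_0 θ) (e1_1_0 θ) (d12_3_0 θ) (d12_2_1 θ)
  have : cubeMeasure (nn q) = 0 := by
    rw [← ae_eq_bot]
    exact Filter.eventually_false_iff_eq_bot.mp hfalse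
  exact IsProbabilityMeasure.ne_zero _ this

end Pool.Agent.Lib.MP_e98621_co
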