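import Mathlib
import Pool.Agent.Lib.MP_e98621_co.Coupling
import Pool.Agent.Lib.MP_e98621_co.NotIndep

/-!
# Unique `ℓ`-coupleability does not imply `ℓ'`-independence
-/

namespace Pool.Agent.Lib.MP_e98621_co

/-- `Independence[ℓ']` is contained in `Independence[1]` for `ℓ' ≥ 1`. -/
lemma Independence.one {L : Lang} {φ : Obj L} {ℓ' : ℕ} (h : 1 ≤ ℓ') (hφ : Independence φ ℓ') :
    Independence φ 1 := by
  obtain ⟨R, hrep, hR⟩ := hφ
  refine ⟨R, hrep, fun i x y hxy => hR i fun B hB => hxy B ?_⟩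
  exact lt_of_le_of_lt h hB

/-- The separation for all pairs. -/
theorem separation (ℓ' ℓ : ℕ) (h1 : 1 ≤ ℓ') (h2 : ℓ' < ℓ) :
    ∃ (L : Lang) (T : CanonicalTheory L) (φ : Obj L),
      IsLimitObject T φ ∧ UCouple T φ ℓ ∧ ¬ Independence φ ℓ' := by
  obtain ⟨q, rfl⟩ : ∃ q, ℓ = q + 1 := ⟨ℓ - 1, by omega⟩
  exact ⟨LK q, freeTheory (LK q), phiK q, isLimitObject_phiK q, ucouple_phiK q,
    fun h => not_independence_one q (h.one h1)⟩

end Pool.Agent.Lib.MP_e98621_co
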